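import Pool.Agent.X157.H.Sqf

set_option autoImplicit false

/-!
# Irreducible members
-/

namespace Pool.Agent.X157.H

open MvPolynomial Pool.Agent.W609 Pool.Agent.W609.CR Pool.Agent.TH167 Pool.Agent.TH167.SH
  Pool.Agent.TH167.TT Pool.Agent.X157.W

theorem exists_through {v : Fin 3 → ℂ} {f : MvPolynomial (Fin 3) ℂ} (hf0 : f ≠ 0)
    (hv : eval v f = 0) : ∃ G : MvPolynomial (Fin 3) ℂ, Irreducible G ∧ G ∣ f ∧ eval v G = 0 := by
  classical
  obtain ⟨u, hu⟩ := UniqueFactorizationMonoid.factors_prod hf0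
  have h1 : eval v (UniqueFactorizationMonoid.factors f).prod = 0 := by
    have h2 : eval v ((UniqueFactorizationMonoid.factors f).prod * u) = 0 := by
      rw [hu]
      exact hv
    rw [map_mul, mul_eq_zero] at h2
    rcases h2 with h2 | h2
    · exact h2
    · exfalso
      have h3 : IsUnit (eval v (u : MvPolynomial (Fin 3) ℂ)) := (u.isUnit).map (eval v)
      exact h3.ne_zero h2
  rw [map_multiset_prod, Multiset.prod_eq_zero_iff] at h1
  obtain ⟨G, hG, hG0⟩ := Multiset.mem_map.1 h1
  exact ⟨G, UniqueFactorizationMonoid.irreducible_of_factor G hG,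
    UniqueFactorizationMonoid.dvd_of_mem_factors hG, hG0⟩

/-- The threshold argument for `n = 11, 15`. -/
theorem thr_pos {s n : ℕ} (hn : 10 ≤ n) (hn' : n = 11 ∨ n = 15) {P : Fin s → Fin 2 → ℂ}
    (hP : Gen P) {S : Finset (Fin s)} (hS : S.card = n) {E x μ m' : ℕ} {U v : Fin s → ℕ}
    (hμ1 : 0 < μ) (hUS : ∀ j ∈ S, U j = μ) (hU0 : ∀ j, j ∉ S → U j = 0)
    (hE : 0 < Module.finrank ℂ ↥(VS (fun j => aff (P j)) U E)) (hvS : ∀ j ∈ S, v j = m')
    (hx0 : 0 < x) (h2 : 2 ≤ Module.finrank ℂ
      ↥(VS (fun j => aff (P j)) (fun j => if j ∈ S then m' else 0) x)) :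
    1 < chi E U + ip x v E U := by
  classical
  obtain ⟨s', hs, hss, hs3⟩ := sqrt_facts hn
  have k1 := nag_real hn hP hS hμ1 hUS (E := E) hE
  have hs1 : (s' - 3) / 2 ≤ 1 := by
    have : s' < 5 := by
      rw [hs]
      rw [Real.sqrt_lt' (by norm_num)]
      rcases hn' with h | h <;> rw [h] <;> norm_num
    linarith
  have k2 : s' * (m' : ℝ) + (s' - 3) / 2 ≤ x := by
    rcases Nat.eq_zero_or_pos m' with h0 | h0
    · rw [h0]
      have : (1 : ℝ) ≤ x := by exact_mod_cast hx0
      push_cast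
      linarith
    · by_contra hc
      push Not at hc
      obtain ⟨e, he, he'⟩ := ex_emb S hS
      have c1 := vs_emb (P := P) he he' (v := fun j => if j ∈ S then m' else 0)
        (μ := m') (fun j hj => by rw [if_pos hj]) (fun j hj => by rw [if_neg hj]) x
      rw [c1] at h2
      have c3 := le_one hn' (gen_emb hP e) (m := m') (d := x) h0 (by
        rw [← hs]
        exact hc)
      omega
  have cA := two_chi E U
  rw [ip_self, kk_def] at cA
  have q1 : (∑ j, (U j : ℤ)) = n * μ := by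
    have e5 : (∑ j, (U j : ℤ)) = ∑ j ∈ S, (U j : ℤ) := by
      symm
      apply Finset.sum_subset (Finset.subset_univ _)
      intro i _ hi
      rw [hU0 i hi]
      rfl
    rw [e5, Finset.sum_congr rfl (fun j hj => by rw [hUS j hj]), Finset.sum_const,
      nsmul_eq_mul, hS]
  have q2 : (∑ j, (U j : ℤ) * U j) = n * (μ * μ) := by
    have e5 : (∑ j, (U j : ℤ) * U j) = ∑ j ∈ S, (U j : ℤ) * U j := by
      symm
      apply Finset.sum_subset (Finset.subset_univ _)
      intro i _ hi
      rw [hU0 i hi]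
      rfl
    rw [e5, Finset.sum_congr rfl (fun j hj => by rw [hUS j hj]), Finset.sum_const,
      nsmul_eq_mul, hS]
  have q3 : (∑ j, (v j : ℤ) * U j) = n * ((m' : ℤ) * μ) := by
    have e5 : (∑ j, (v j : ℤ) * U j) = ∑ j ∈ S, (v j : ℤ) * U j := by
      symm
      apply Finset.sum_subset (Finset.subset_univ _)
      intro i _ hi
      rw [hU0 i hi]
      simp
    rw [e5, Finset.sum_congr rfl (fun j hj => by rw [hUS j hj, hvS j hj]), Finset.sum_const,
      nsmul_eq_mul, hS]
  rw [q1, q2] at cA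
  have hd' : ip x v E U = (x : ℤ) * E - ∑ j, (v j : ℤ) * U j := rfl
  rw [q3] at hd'
  by_contra hcon
  push Not at hcon
  rw [hd'] at hcon
  have hfin : 2 * ((E : ℤ) * x - n * (μ * (m' : ℤ))) +
      (E * E - n * (μ * μ) + (3 * E - n * μ)) ≤ 0 := by
    have e6 : (x : ℤ) * E = E * x := mul_comm _ _
    have e7 : (m' : ℤ) * μ = μ * m' := mul_comm _ _
    rw [e6, e7] at hcon
    linarith
  have hfinR : 2 * ((E : ℝ) * x - n * (μ * (m' : ℝ))) +
      (E * E - n * (μ * μ) + (3 * E - n * μ)) ≤ 0 := by exact_mod_cast hfin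
  have k3 := thr_num hs3 (μ := (μ : ℝ)) (m' := (m' : ℝ)) (Nat.cast_nonneg _)
    (Nat.cast_nonneg _) (by rw [hs]; exact k1) k2
  rw [hss] at k3
  linarith

theorem irr_rigid {s n : ℕ} (hn : 10 ≤ n) (hC : Uns n ∨ n = 11 ∨ n = 15) {P : Fin s → Fin 2 → ℂ} (hP : Gen P)
    {S : Finset (Fin s)} (hS : S.card = n) {d m : ℕ} (hm : 1 ≤ m) {w : Fin s → ℕ}
    (hwS : ∀ j ∈ S, w j = m) (hw2 : ∀ j, j ∉ S → w j ≤ 2) {q : Fin s} (hq : q ∉ S)
    (hwq : w q = 1) (h1 : Module.finrank ℂ ↥(VS (fun j => aff (P j)) w d) = 1) : Ic P d w := by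
  classical
  have hGd : Good n := by
    rcases hC with h | h
    · exact good_of_uns h
    · exact good_eleven h
  obtain ⟨f, hf, hf0⟩ := exists_mem
    (show 0 < Module.finrank ℂ ↥(VS (fun j => aff (P j)) w d) by omega)
  have hsq := rigid_sqf hn hGd hP hS hm hwS hw2 (Or.inr ⟨q, hq, by omega⟩) h1 hf hf0
  have hfo := exact_ord hP h1 hf hf0
  have hfm := (mem_VS _ _ _ _).1 hf
  have hfq : eval (aff (P q)) f = 0 := by
    have h2 := hfm.2 q
    rw [hwq] at h2
    exact (TT.van_one).1 h2
  obtain ⟨G, hG, hGf, hG0⟩ := exists_through hf0 hfq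
  have hGh := Pool.Agent.Chud.homog_of_dvd hfm.1 hf0 hGf
  obtain ⟨e, he⟩ : ∃ e, e = G.totalDegree := ⟨_, rfl⟩
  rw [← he] at hGh
  have hepos : 0 < e := deg_pos hG hGh
  choose u hu using fun j => exists_ord (p := P j) hG.ne_zero hGh
  have huq : 1 ≤ u q := by
    by_contra hcon
    have h2 : u q = 0 := by omega
    have h3 := (hu q).2
    rw [h2, zero_add] at h3
    exact h3 ((TT.van_one).2 hG0)
  obtain ⟨H, hH⟩ := hGf
  have hH0 : H ≠ 0 := fun h => hf0 (by rw [hH, h, mul_zero])
  obtain ⟨q1, q2⟩ := mem_of_factor hf hf0 hGh hu hH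
  have huw : ∀ j, u j ≤ w j := by
    intro j
    obtain ⟨β, hβ⟩ := exists_ord (p := P j) hH0 ((mem_VS _ _ _ _).1 q2).1
    have h4 := ord_mul (hu j) hβ
    rw [← hH] at h4
    have h5 := ord_unique (hfo j) h4
    omega
  obtain ⟨x, hx⟩ : ∃ x, x = d - e := ⟨_, rfl⟩
  have hdx : d = x + e := by omega
  obtain ⟨v, hv⟩ : ∃ v : Fin s → ℕ, v = fun j => w j - u j := ⟨_, rfl⟩
  have hvj : ∀ j, v j = w j - u j := fun j => by rw [hv]
  have hwv : w = fun j => v j + u j := by
    funext j
    rw [hvj]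
    have := huw j
    omega
  rw [← hx, ← hv] at q2
  -- a curve
  rcases Nat.eq_zero_or_pos x with hx0 | hx0
  · refine ⟨G, hG, ?_, fun j => ?_⟩
    · have : d = e := by omega
      rw [this]
      exact hGh
    · have h3 := (mem_VS _ _ _ _).1 q2
      rw [hx0] at h3
      have h4 := van_le hH0 h3.1 (h3.2 j)
      have h5 : w j = u j := by
        have := huw j
        have := hvj j
        omega
      rw [h5]
      exact hu j
  exfalso
  have hxH : H ∈ VS (fun j => aff (P j)) v x := q2
  have hall : ∀ F ∈ VS (fun j => aff (P j)) w d, G ∣ F := by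
    intro F hF
    have h2 := (finrank_eq_one_iff_of_nonzero' (⟨f, hf⟩ : ↥(VS (fun j => aff (P j)) w d))
      (fun h => hf0 (congrArg Subtype.val h))).1 h1 ⟨F, hF⟩
    obtain ⟨c, hc⟩ := h2
    have h3 : c • f = F := congrArg Subtype.val hc
    rw [← h3, MvPolynomial.smul_eq_C_mul]
    exact Dvd.dvd.mul_left (Dvd.intro _ hH.symm) _
  have hFx : Fx P d w e u G := ⟨hG, hGh, hu, hall⟩
  -- the curve through `q` is symmetric
  have hinv : ∀ a b, a ≠ q → b ≠ q → w a = w b → u a = u b := by
    intro a b ha hb hab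
    by_contra hne
    obtain ⟨G', hG'⟩ := hFx.perm hP (Equiv.swap a b) (sw_w hab)
    obtain ⟨g1, g2, g3, g4⟩ := hG'
    have hcl : ¬ G ∣ G' := by
      intro hd
      have h3 := (assoc_class hG g1 hGh g2 hu g3 hd).2
      have h4 := congrFun h3 a
      simp only [Equiv.swap_apply_left] at h4
      exact hne h4
    have hrel : IsRelPrime G G' := (hG.isRelPrime_iff_not_dvd).2 hcl
    obtain ⟨K, hK⟩ := hrel.mul_dvd (hall f hf) (g4 f hf)
    have hK0 : K ≠ 0 := fun h => hf0 (by rw [hK, h, mul_zero])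
    have hKh := Pool.Agent.Chud.homog_of_dvd hfm.1 hf0 (Dvd.intro_left _ hK.symm)
    obtain ⟨β, hβ⟩ := exists_ord (p := P q) hK0 hKh
    have h4 := ord_mul (ord_mul (hu q) (g3 q)) hβ
    rw [← hK] at h4
    have h5 : w q = u q + u (Equiv.swap a b q) + β := ord_unique (hfo q) h4
    rw [Equiv.swap_apply_of_ne_of_ne (Ne.symm ha) (Ne.symm hb)] at h5
    omega
  obtain ⟨i0, hi0⟩ : S.Nonempty := Finset.card_pos.1 (by omega)
  obtain ⟨μ, hμ⟩ : ∃ μ, μ = u i0 := ⟨_, rfl⟩
  have hSq : ∀ j ∈ S, j ≠ q := fun j hj h => hq (h ▸ hj)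
  have hUS : ∀ j ∈ S, u j = μ := fun j hj => by
    rw [hμ]
    exact hinv _ _ (hSq j hj) (hSq i0 hi0) (by rw [hwS j hj, hwS i0 hi0])
  have hμm : μ ≤ m := by
    rw [hμ, ← hwS i0 hi0]
    exact huw i0
  have hvS : ∀ j ∈ S, v j = m - μ := fun j hj => by rw [hvj, hUS j hj, hwS j hj]
  have hU2 : ∀ j, j ∉ S → u j ≤ 2 := fun j hj => (huw j).trans (hw2 j hj)
  have hv2 : ∀ j, j ∉ S → v j ≤ 2 := fun j hj => by
    rw [hvj]
    have := hw2 j hj
    omega
  have hGm : G ∈ VS (fun j => aff (P j)) u e := (mem_VS _ _ _ _).2 ⟨hGh, fun j => (hu j).1⟩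
  have a1 : Module.finrank ℂ ↥(VS (fun j => aff (P j)) u e) = 1 := by
    refine le_antisymm ?_ (pos_of_mem hGm hG.ne_zero)
    have h3 := mult_le (w := u) (d := e) hxH hH0
    have e1 : (fun j => u j + v j) = w := by
      funext j
      rw [hvj]
      have := huw j
      omega
    rw [e1, show e + x = d by omega, h1] at h3
    exact h3
  have a2 : Module.finrank ℂ ↥(VS (fun j => aff (P j)) v x) = 1 := by
    refine le_antisymm ?_ (pos_of_mem hxH hH0)
    have h3 := mult_le (w := v) (d := x) hGm hG.ne_zero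
    rw [← hwv, ← hdx, h1] at h3
    exact h3
  have cD : chi d w = 1 := rigid_chi hn hGd hP hS d m hm w hwS hw2
    (Or.inr ⟨q, hq, by omega⟩) h1
  have cA : chi e u = 1 := by
    rcases Nat.eq_zero_or_pos μ with h0 | h0
    · refine sqf_chi hP (fun j => ?_) a1 hGm hG.ne_zero hG.squarefree
      by_cases hj : j ∈ S
      · rw [hUS j hj, h0]
        norm_num
      · exact hU2 j hj
    · exact rigid_chi hn hGd hP hS e μ h0 u hUS hU2 (Or.inr ⟨q, hq, by omega⟩) a1
  have cM : chi x v = 1 := by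
    rcases Nat.eq_zero_or_pos (m - μ) with h0 | h0
    · refine sqf_chi hP (fun j => ?_) a2 hxH hH0
        (hsq.squarefree_of_dvd (Dvd.intro_left _ hH.symm))
      by_cases hj : j ∈ S
      · rw [hvS j hj, h0]
        norm_num
      · exact hv2 j hj
    · by_cases hc : Uns n ∨ ∃ j, j ∉ S ∧ 0 < v j
      · exact rigid_chi hn hGd hP hS x (m - μ) h0 v hvS hv2 hc a2
      exfalso
      push Not at hc
      obtain ⟨hnu, hv0⟩ := hc
      have hn' : n = 11 ∨ n = 15 := by
        rcases hC with h | h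
        · exact absurd h hnu
        · exact h
      have huq1 : u q = 1 := by
        have := huw q
        omega
      obtain ⟨u', hu'⟩ : ∃ u', u' = Function.update u q 0 := ⟨_, rfl⟩
      have hu'q : u' q = 0 := by rw [hu', Function.update_self]
      have hu'1 : Function.update u' q 1 = u := by
        rw [hu', Function.update_idem, ← huq1, Function.update_eq_self]
      have hu'j : ∀ j, u' j ≤ u j := fun j => by
        by_cases hj : j = q
        · rw [hj, hu'q]
          exact Nat.zero_le _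
        · rw [hu', Function.update_of_ne hj]
      have hu'S : ∀ j ∈ S, u' j = μ := fun j hj => by
        rw [hu', Function.update_of_ne (hSq j hj)]
        exact hUS j hj
      have b0 : 0 < Module.finrank ℂ ↥(VS (fun j => aff (P j)) u' e) :=
        pos_of_mem (vs_le hu'j hGm) hG.ne_zero
      have b1 := simple_drop hP hu'q b0
      rw [hu'1, a1] at b1
      have b2 : Module.finrank ℂ ↥(VS (fun j => aff (P j)) u' e) ≤ Module.finrank ℂ
          ↥(VS (fun j => aff (P j)) (fun j => if j ∈ S then μ else 0) e) := by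
        have hf := vs_fin (fun j => aff (P j)) (fun j => if j ∈ S then μ else 0) e
        refine Submodule.finrank_mono (vs_le fun j => ?_)
        by_cases hj : j ∈ S
        · rw [if_pos hj, hu'S j hj]
        · rw [if_neg hj]
          exact Nat.zero_le _
      have b3 := thr_pos hn hn' hP hS (E := x) (x := e) (U := v) (v := u) h0 hvS
        (fun j hj => by
          have := hv0 j hj
          omega) (by omega) hUS hepos (by omega)
      have hsum := chi_sum x e v u
      rw [← hwv, ← hdx, cD, cA] at hsum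
      linarith
  have hsum := chi_sum x e v u
  rw [← hwv, ← hdx, cD, cM, cA] at hsum
  have hAM : ip e u x v = 0 := by linarith
  refine final_num (h := 0) hn hP hS hepos hx0 hUS hvS (by omega) (by omega) (by omega) cA
    (by rw [cM]; norm_num) hAM ?_
  by_cases hex : ∃ j, j ∉ S ∧ u j = 1 ∧ v j = 1
  · left
    obtain ⟨j1, hj1, hj1U, hj1v⟩ := hex
    have hw1 : w j1 = 2 := by
      have := hvj j1
      have := huw j1
      omega
    have hj1q : j1 ≠ q := fun h => by
      rw [h, hwq] at hw1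
      omega
    intro j hj
    have h3 := hvj j
    have h4 := huw j
    have h5 := hw2 j hj
    by_cases hj2 : w j = 2
    · have hjq : j ≠ q := fun h => by
        rw [h, hwq] at hj2
        omega
      have h6 := hinv j j1 hjq hj1q (by rw [hj2, hw1])
      omega
    · omega
  · right
    intro j hj
    have h3 := hvj j
    have h4 := huw j
    have h5 := hw2 j hj
    by_contra hne
    apply hex
    refine ⟨j, hj, ?_⟩
    have h6 : u j ≠ 0 := fun h => hne (by rw [h]; simp)
    have h7 : v j ≠ 0 := fun h => hne (by rw [h]; simp)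
    omega

/-- Systems of dimension at least one, or with a simple point, have irreducible members. -/
theorem irr_full {n : ℕ} (hn : 10 ≤ n) (hC : Uns n ∨ n = 11 ∨ n = 15) (d m : ℕ) (hm : 1 ≤ m) :
    ∀ (h s : ℕ) (P : Fin s → Fin 2 → ℂ) (_ : Gen P) (S : Finset (Fin s)) (_ : S.card = n)
    (w : Fin s → ℕ) (_ : ∀ j ∈ S, w j = m) (_ : ∀ j, j ∉ S → w j ≤ 2)
    (_ : (∃ j, j ∉ S ∧ w j = 1) ∨ 0 < h)
    (_ : Module.finrank ℂ ↥(VS (fun j => aff (P j)) w d) = h + 1), Ic P d w := by
  classical
  intro h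
  induction h with
  | zero =>
    intro s P hP S hS w hwS hw2 hc h1
    obtain ⟨q, hq, hwq⟩ : ∃ j, j ∉ S ∧ w j = 1 := by
      rcases hc with h | h
      · exact h
      · omega
    exact irr_rigid hn hC hP hS hm hwS hw2 hq hwq h1
  | succ h ih =>
    intro s P hP S hS w hwS hw2 _ h1
    obtain ⟨P0, hP0⟩ := exists_Gen (s + 1)
    have hP1 : Gen fun j : Fin s => P0 j.castSucc := gen_emb hP0 Fin.castSuccEmb
    have h5 := gen_eq (P := fun j : Fin s => P0 j.castSucc) (P' := P) hP1 hP w d
    rw [h1, ← snoc_zero] at h5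
    obtain ⟨w0, hw0⟩ : ∃ w0 : Fin (s + 1) → ℕ, w0 = Fin.snoc (α := fun _ => ℕ) w 0 := ⟨_, rfl⟩
    rw [← hw0] at h5
    have hlast : w0 (Fin.last s) = 0 := by
      rw [hw0, Fin.snoc_last]
    have hcast : ∀ j : Fin s, w0 j.castSucc = w j := by
      intro j
      rw [hw0, Fin.snoc_castSucc]
    have h6 := simple_drop hP0 hlast (d := d) (by omega)
    have h7 := simple_le P0 hlast d
    have hne : ∀ j : Fin s, j.castSucc ≠ Fin.last s := fun j => (Fin.castSucc_lt_last j).ne
    have h8 := ih (s + 1) P0 hP0 (S.map Fin.castSuccEmb) (by rw [Finset.card_map]; exact hS)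
      (Function.update w0 (Fin.last s) 1) (by
        intro j hj
        obtain ⟨i, hi, rfl⟩ := Finset.mem_map.1 hj
        show Function.update w0 (Fin.last s) 1 i.castSucc = m
        rw [Function.update_of_ne (hne i), hcast]
        exact hwS i hi) (by
        intro j hj
        by_cases hjl : j = Fin.last s
        · rw [hjl, Function.update_self]
          norm_num
        · rw [Function.update_of_ne hjl]
          obtain ⟨i, rfl⟩ : ∃ i : Fin s, i.castSucc = j :=
            ⟨j.castPred hjl, Fin.castSucc_castPred j hjl⟩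
          rw [hcast]
          exact hw2 i fun hi => hj (Finset.mem_map.2 ⟨i, hi, rfl⟩)) (by
        left
        refine ⟨Fin.last s, fun hl => ?_, by rw [Function.update_self]⟩
        obtain ⟨i, -, hi⟩ := Finset.mem_map.1 hl
        exact hne i hi) (by omega)
    have h9 : Ic (fun j : Fin s => P0 j.castSucc) d w := by
      obtain ⟨G, g1, g2, g3⟩ := h8
      refine ⟨G, g1, g2, fun j => ?_⟩
      have h10 := g3 j.castSucc
      rw [Function.update_of_ne (hne j), hcast] at h10
      exact h10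
    exact h9.move hP1 hP

end Pool.Agent.X157.H
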