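import Pool.Agent.X157.H.Full

set_option autoImplicit false

/-!
# Double and simple points only
-/

namespace Pool.Agent.X157.H

open MvPolynomial Pool.Agent.W609 Pool.Agent.W609.CR Pool.Agent.TH167 Pool.Agent.TH167.SH
  Pool.Agent.TH167.TT Pool.Agent.X157.W

theorem uns0 : Uns 0 := by
  intro Q _ m d hSp
  have e1 : (fun _ : Fin 0 => m) = fun _ => 0 := funext fun j => j.elim0
  have h1 : Module.finrank ℂ ↥(VS (fun j => aff (Q j)) (fun _ : Fin 0 => m) d) =
      (d + 2).choose 2 := by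
    rw [e1, vs_zero]
  have h3 := hSp.2
  rw [h1] at h3
  unfold chi at h3
  simp at h3

/-- simple points -/
theorem simple_chi {s : ℕ} {P : Fin s → Fin 2 → ℂ} (hP : Gen P) {v : Fin s → ℕ}
    (hv : ∀ j, v j ≤ 1) {d : ℕ}
    (hpos : 0 < Module.finrank ℂ ↥(VS (fun j => aff (P j)) v d)) :
    (Module.finrank ℂ ↥(VS (fun j => aff (P j)) v d) : ℤ) = chi d v :=
  uni_one (n := 0) (fun Q hQ m d _ => uns0 Q hQ m d) hP (S := ∅) rfl (μ := 0)
    (fun j hj => absurd hj (Finset.notMem_empty j)) (fun j _ => hv j) hpos (Or.inl uns0)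

/-- the chi of a sum -/
theorem chi_sum {s : ℕ} (x E : ℕ) (v U : Fin s → ℕ) :
    chi (x + E) (fun j => v j + U j) = chi x v + chi E U - 1 + ip E U x v := by
  have c0 := two_chi x v
  have c1 := two_chi (x + E) (fun j => v j + U j)
  have c2 := two_chi E U
  have e3 : ip (x + E) (fun j => v j + U j) (x + E) (fun j => v j + U j) =
      ip x v x v + ip E U E U + 2 * ip E U x v := by
    have hd : ip E U x v = (E : ℤ) * x - ∑ j, (U j : ℤ) * v j := rfl
    rw [ip_self, ip_self, ip_self, hd]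
    have e0 : (∑ j, ((v j + U j : ℕ) : ℤ) * ((v j + U j : ℕ) : ℤ)) =
        (∑ j, (v j : ℤ) * v j) + (∑ j, (U j : ℤ) * U j) + 2 * ∑ j, (U j : ℤ) * v j := by
      rw [Finset.mul_sum, ← Finset.sum_add_distrib, ← Finset.sum_add_distrib]
      refine Finset.sum_congr rfl fun j _ => ?_
      push_cast
      ring
    rw [e0]
    push_cast
    ring
  have e4 : kk (x + E) (fun j => v j + U j) = kk x v + kk E U := by
    rw [kk_def, kk_def, kk_def]
    have e0 : (∑ j, ((v j + U j : ℕ) : ℤ)) = (∑ j, (v j : ℤ)) + ∑ j, (U j : ℤ) := by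
      rw [← Finset.sum_add_distrib]
      refine Finset.sum_congr rfl fun j _ => ?_
      push_cast
      ring
    rw [e0]
    push_cast
    ring
  linarith

/-- reduced rigid systems -/
theorem sqf_chi {s : ℕ} {P : Fin s → Fin 2 → ℂ} (hP : Gen P) {w : Fin s → ℕ}
    (hw2 : ∀ j, w j ≤ 2) {d : ℕ}
    (h1 : Module.finrank ℂ ↥(VS (fun j => aff (P j)) w d) = 1)
    {f : MvPolynomial (Fin 3) ℂ} (hf : f ∈ VS (fun j => aff (P j)) w d) (hf0 : f ≠ 0)
    (hsq : Squarefree f) : chi d w = 1 := by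
  classical
  have hle := chi_le_dim P d w
  rw [h1] at hle
  have h2 := tlem hP h1 hf hf0 hsq ∅ (fun j _ => hw2 j)
  have e1 : (fun j => if j ∈ (∅ : Finset (Fin s)) then w j else 0) = fun _ => 0 := by
    funext j
    rw [if_neg (Finset.notMem_empty j)]
  have e2 : ∑ j, (if j ∈ (∅ : Finset (Fin s)) then 0 else (w j + 1).choose 2) =
      ∑ j, (w j + 1).choose 2 :=
    Finset.sum_congr rfl fun j _ => by rw [if_neg (Finset.notMem_empty j)]
  rw [e1, e2, vs_zero] at h2
  have h3 : ((1 + ∑ j, (w j + 1).choose 2 : ℕ) : ℤ) ≤ (((d + 2).choose 2 : ℕ) : ℤ) := by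
    exact_mod_cast h2
  unfold chi at hle ⊢
  push_cast at h3 hle ⊢
  linarith

theorem ah_rigid {s : ℕ} {P : Fin s → Fin 2 → ℂ} (hP : Gen P) {w : Fin s → ℕ}
    (hw2 : ∀ j, w j ≤ 2) (hex : ∃ j, w j = 1) {d : ℕ}
    (h1 : Module.finrank ℂ ↥(VS (fun j => aff (P j)) w d) = 1) : chi d w = 1 := by
  classical
  obtain ⟨f, hf, hf0⟩ := exists_mem
    (show 0 < Module.finrank ℂ ↥(VS (fun j => aff (P j)) w d) by omega)
  by_cases hsq : Squarefree f
  · exact sqf_chi hP hw2 h1 hf hf0 hsq
  exfalso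
  obtain ⟨E, U, hE, hEd, h2U, hinv, a1, a2, a3, a4⟩ := exists_sq hP h1 hf hf0 hsq
  have hU1 : ∀ j, U j ≤ 1 := fun j => by
    have := hw2 j
    have := h2U j
    omega
  have c1 := simple_chi hP hU1 (d := E) (by omega)
  rw [a1] at c1
  have c1' := two_chi E U
  rw [← c1, ip_self, kk_def] at c1'
  have hE' : (0 : ℤ) < E := by exact_mod_cast hE
  have hj0 : ∃ j0, U j0 ≠ 0 := by
    by_contra hcon
    push Not at hcon
    have q1 : (∑ j, (U j : ℤ)) = 0 := Finset.sum_eq_zero fun j _ => by rw [hcon j]; rfl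
    have q2 : (∑ j, (U j : ℤ) * U j) = 0 := Finset.sum_eq_zero fun j _ => by rw [hcon j]; rfl
    rw [q1, q2] at c1'
    push_cast at c1'
    nlinarith
  obtain ⟨j0, hj0⟩ := hj0
  have hw0 : w j0 = 2 := by
    have := hw2 j0
    have := h2U j0
    omega
  have hU0 : U j0 = 1 := by
    have := h2U j0
    omega
  have hUw : ∀ j, (U j = 1 ∧ w j = 2) ∨ (U j = 0 ∧ w j ≤ 1) := by
    intro j
    by_cases hj : w j = 2
    · left
      refine ⟨?_, hj⟩
      rw [← hU0]
      exact hinv _ _ (by rw [hj, hw0])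
    · right
      have := hw2 j
      have := h2U j
      omega
  obtain ⟨x, hx⟩ : ∃ x, x = d - 2 * E := ⟨_, rfl⟩
  have hx2 : d - E = x + E := by omega
  obtain ⟨v, hv⟩ : ∃ v : Fin s → ℕ, v = fun j => w j - 2 * U j := ⟨_, rfl⟩
  have hvj : ∀ j, v j = w j - 2 * U j := fun j => by rw [hv]
  have hwv1 : (fun j => w j - U j) = fun j => v j + U j := by
    funext j
    rw [hvj]
    have := h2U j
    omega
  rw [← hx, ← hv] at a3
  rw [hx2, hwv1] at a4
  have c2 := simple_chi hP (v := v) (fun j => by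
    rw [hvj]
    have := hUw j
    omega) (d := x) (by omega)
  have c3 := simple_chi hP (v := fun j => v j + U j) (fun j => by
    show v j + U j ≤ 1
    rw [hvj]
    have := hUw j
    omega) (d := x + E) (by omega)
  rw [a3] at c2
  rw [a4, chi_sum, ← c1, ← c2] at c3
  have hd : ip E U x v = (E : ℤ) * x - ∑ j, (U j : ℤ) * v j := rfl
  have h0 : ∑ j, (U j : ℤ) * v j = 0 := Finset.sum_eq_zero fun j _ => by
    rcases hUw j with ⟨h, h'⟩ | ⟨h, -⟩
    · have : v j = 0 := by
        rw [hvj]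
        omega
      rw [this]
      simp
    · rw [h]
      simp
  rw [hd, h0] at c3
  push_cast at c3
  have d4 : (E : ℤ) * x = 0 := by linarith
  have hx0 : (x : ℤ) = 0 := by
    rcases mul_eq_zero.1 d4 with h | h
    · omega
    · exact h
  have c2' := two_chi x v
  rw [← c2, ip_self, kk_def, hx0] at c2'
  obtain ⟨j1, hj1⟩ := hex
  have d6 : (0 : ℤ) ≤ ∑ j, (v j : ℤ) * v j := Finset.sum_nonneg fun j _ => by positivity
  have d7 : ((v j1 : ℕ) : ℤ) ≤ ∑ j, (v j : ℤ) :=
    Finset.single_le_sum (f := fun j => (v j : ℤ))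
      (fun j _ => Int.natCast_nonneg _) (Finset.mem_univ j1)
  have d8 : v j1 = 1 := by
    rw [hvj]
    have := hUw j1
    omega
  rw [d8] at d7
  push_cast at d7 c2'
  linarith

theorem ah_full (d : ℕ) : ∀ (h s : ℕ) (P : Fin s → Fin 2 → ℂ) (_ : Gen P)
    (w : Fin s → ℕ) (_ : ∀ j, w j ≤ 2) (_ : (∃ j, w j = 1) ∨ 0 < h)
    (_ : Module.finrank ℂ ↥(VS (fun j => aff (P j)) w d) = h + 1), chi d w = h + 1 := by
  classical
  intro h
  induction h with
  | zero =>
    intro s P hP w hw2 hc h1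
    have h2 := ah_rigid hP hw2 (by
      rcases hc with h | h
      · exact h
      · omega) h1
    rw [h2]
    norm_num
  | succ h ih =>
    intro s P hP w hw2 _ h1
    obtain ⟨P0, hP0⟩ := exists_Gen (s + 1)
    have hP1 : Gen fun j : Fin s => P0 j.castSucc := gen_emb hP0 Fin.castSuccEmb
    have h5 := gen_eq (P := fun j : Fin s => P0 j.castSucc) (P' := P) hP1 hP w d
    rw [h1, ← snoc_zero] at h5
    obtain ⟨w0, hw0⟩ : ∃ w0 : Fin (s + 1) → ℕ, w0 = Fin.snoc (α := fun _ => ℕ) w 0 := ⟨_, rfl⟩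
    rw [← hw0] at h5
    have hlast : w0 (Fin.last s) = 0 := by
      rw [hw0, Fin.snoc_last]
    have hcast : ∀ j : Fin s, w0 j.castSucc = w j := by
      intro j
      rw [hw0, Fin.snoc_castSucc]
    have h6 := simple_drop hP0 hlast (d := d) (by omega)
    have h7 := simple_le P0 hlast d
    have h8 := ih (s + 1) P0 hP0
      (Function.update w0 (Fin.last s) 1) (by
        intro j
        by_cases hjl : j = Fin.last s
        · rw [hjl, Function.update_self]
          norm_num
        · rw [Function.update_of_ne hjl]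
          obtain ⟨i, rfl⟩ : ∃ i : Fin s, i.castSucc = j :=
            ⟨j.castPred hjl, Fin.castSucc_castPred j hjl⟩
          rw [hcast]
          exact hw2 i) (by
        left
        exact ⟨Fin.last s, by rw [Function.update_self]⟩) (by omega)
    rw [chi_update hlast, hw0, chi_snoc] at h8
    push_cast
    linarith

end Pool.Agent.X157.H
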