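import Pool.Agent.X157.H.Full
import Pool.Agent.TH167.TT.Strict

set_option autoImplicit false

/-!
# The symmetric reduced fixed part
-/

namespace Pool.Agent.X157.H

open MvPolynomial Pool.Agent.W609 Pool.Agent.W609.CR Pool.Agent.TH167 Pool.Agent.TH167.SH
  Pool.Agent.TH167.TT Pool.Agent.X157.W

/-- A system with an irreducible fixed component contains a symmetric reduced fixed part. -/
theorem exists_fix {r : ℕ} {P : Fin (r + 4) → Fin 2 → ℂ} (hP : Gen P) {d : ℕ}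
    {w : Fin (r + 4) → ℕ}
    (hpos : 0 < Module.finrank ℂ ↥(VS (fun j => aff (P j)) w d))
    {G : MvPolynomial (Fin 3) ℂ} (hG : Irreducible G)
    (hGF : ∀ F ∈ VS (fun j => aff (P j)) w d, G ∣ F) :
    ∃ (E : ℕ) (U : Fin (r + 4) → ℕ), 0 < E ∧ E ≤ d ∧ (∀ j, U j ≤ w j) ∧
      (∀ i j, w i = w j → U i = U j) ∧
      Module.finrank ℂ ↥(VS (fun j => aff (P j)) U E) = 1 ∧
      (∃ A ∈ VS (fun j => aff (P j)) U E, A ≠ 0 ∧ Squarefree A) ∧
      Module.finrank ℂ ↥(VS (fun j => aff (P j)) (fun j => w j - U j) (d - E)) =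
        Module.finrank ℂ ↥(VS (fun j => aff (P j)) w d) := by
  classical
  obtain ⟨f, hf, hf0, hfo⟩ := exists_exact hP hpos
  have hfm := (mem_VS _ _ _ _).1 hf
  have hGh := Pool.Agent.Chud.homog_of_dvd hfm.1 hf0 (hGF f hf)
  obtain ⟨e, he⟩ : ∃ e, e = G.totalDegree := ⟨_, rfl⟩
  rw [← he] at hGh
  have hex : ∀ j, ∃ m, Ord (aff (P j)) m G := fun j => exists_ord (p := P j) hG.ne_zero hGh
  choose u hu using hex
  have hK : FxK P d w 1 e u G := ⟨hG, hGh, hu, fun F hF => by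
    rw [pow_one]
    exact hGF F hF⟩
  have hepos : 0 < e := deg_pos hG hGh
  obtain ⟨T, hTd⟩ : ∃ T : Finset (ℕ × (Fin (r + 4) → ℕ)), T = (Finset.univ.filter
    fun σ : Equiv.Perm (Fin (r + 4)) => ∀ j, w (σ j) = w j).image
      fun σ => (e, fun j => u (σ j)) := ⟨_, rfl⟩
  have hTmem : ∀ t, t ∈ T ↔ ∃ σ : Equiv.Perm (Fin (r + 4)), (∀ j, w (σ j) = w j) ∧
      (e, fun j => u (σ j)) = t := by
    intro t
    rw [hTd, Finset.mem_image]
    constructor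
    · rintro ⟨σ, hσ, h⟩
      exact ⟨σ, (Finset.mem_filter.1 hσ).2, h⟩
    · rintro ⟨σ, hσ, h⟩
      exact ⟨σ, Finset.mem_filter.2 ⟨Finset.mem_univ _, hσ⟩, h⟩
  have hT : ∀ t : ℕ × (Fin (r + 4) → ℕ), ∃ G', t ∈ T → FxK P d w 1 t.1 t.2 G' := by
    intro t
    by_cases ht : t ∈ T
    · obtain ⟨σ, hσ, rfl⟩ := (hTmem t).1 ht
      obtain ⟨G', hG'⟩ := hK.perm hP σ hσ
      exact ⟨G', fun _ => hG'⟩
    · exact ⟨0, fun h => absurd h ht⟩
  choose G' hG' using hT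
  have hne : ∀ t ∈ T, ∀ t' ∈ T, t ≠ t' → ¬ (t.1 = t'.1 ∧ t.2 = t'.2) :=
    fun t _ t' _ htt h => htt (Prod.ext h.1 h.2)
  obtain ⟨E, hE⟩ : ∃ E, E = ∑ t ∈ T, t.1 := ⟨_, rfl⟩
  obtain ⟨U, hU⟩ : ∃ U : Fin (r + 4) → ℕ, U = fun j => ∑ t ∈ T, t.2 j := ⟨_, rfl⟩
  have hmem1 : (e, u) ∈ T := (hTmem _).2 ⟨1, fun _ => rfl, rfl⟩
  have hEpos : 0 < E := by
    rw [hE]
    exact lt_of_lt_of_le hepos (Finset.single_le_sum
      (f := fun t : ℕ × (Fin (r + 4) → ℕ) => t.1) (fun t _ => Nat.zero_le _) hmem1)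
  obtain ⟨A, hA⟩ : ∃ A, A = ∏ t ∈ T, G' t := ⟨_, rfl⟩
  have hA0 : A ≠ 0 := by
    rw [hA]
    exact Finset.prod_ne_zero_iff.2 fun t ht => (hG' t ht).1.ne_zero
  have hAh : A.IsHomogeneous E := by
    rw [hA, hE]
    exact MvPolynomial.IsHomogeneous.prod T G' (fun t => t.1) fun t ht => (hG' t ht).2.1
  have hAo : ∀ j, Ord (aff (P j)) (U j) A := by
    intro j
    rw [hA, hU]
    exact ord_prod T G' (fun t => t.2 j) fun t ht => (hG' t ht).2.2.1 j
  have hrel : Set.Pairwise (T : Set (ℕ × (Fin (r + 4) → ℕ))) (Function.onFun IsRelPrime G') := by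
    intro t ht t' ht' htt
    show IsRelPrime (G' t) (G' t')
    rw [(hG' t ht).1.isRelPrime_iff_not_dvd]
    intro hd
    obtain ⟨a1, a2, a3, -⟩ := hG' t ht
    obtain ⟨b1, b2, b3, -⟩ := hG' t' ht'
    exact hne t ht t' ht' htt (assoc_class a1 b1 a2 b2 a3 b3 hd)
  have hAsq : Squarefree A := by
    rw [hA]
    exact Finset.squarefree_prod_of_pairwise_isCoprime hrel
      fun t ht => (hG' t ht).1.squarefree
  have hAd : ∀ F ∈ VS (fun j => aff (P j)) w d, A ∣ F := by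
    intro F hF
    rw [hA]
    refine Finset.prod_dvd_of_isRelPrime hrel fun t ht => ?_
    have := (hG' t ht).2.2.2 F hF
    rwa [pow_one] at this
  obtain ⟨h', hh'⟩ := hAd f hf
  have hh0 : h' ≠ 0 := fun h => hf0 (by rw [hh', h, mul_zero])
  obtain ⟨q1, q2⟩ := mem_of_factor hf hf0 hAh hAo hh'
  have hAm : A ∈ VS (fun j => aff (P j)) U E := (mem_VS _ _ _ _).2 ⟨hAh, fun j => (hAo j).1⟩
  have hUw : ∀ j, U j ≤ w j := by
    intro j
    obtain ⟨β, hβ⟩ := exists_ord (p := P j) hh0 ((mem_VS _ _ _ _).1 q2).1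
    have h4 := ord_mul (hAo j) hβ
    rw [← hh'] at h4
    have h5 := ord_unique (hfo j) h4
    omega
  refine ⟨E, U, hEpos, q1, hUw, ?_, ?_, ⟨A, hAm, hA0, hAsq⟩, ?_⟩
  · intro i j hij
    rw [hU]
    show ∑ t ∈ T, t.2 i = ∑ t ∈ T, t.2 j
    have hmaps : ∀ t ∈ T, ((t.1, fun l => t.2 (Equiv.swap i j l)) :
        ℕ × (Fin (r + 4) → ℕ)) ∈ T := by
      intro t ht
      obtain ⟨σ, hσ, rfl⟩ := (hTmem t).1 ht
      refine (hTmem _).2 ⟨(Equiv.swap i j).trans σ, fun l => ?_, rfl⟩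
      show w (σ (Equiv.swap i j l)) = w l
      rw [hσ, sw_w hij]
    have hinv : ∀ t ∈ T, ((((t.1, fun l => t.2 (Equiv.swap i j l)) : ℕ × (Fin (r + 4) → ℕ)).1,
        fun l => ((t.1, fun l => t.2 (Equiv.swap i j l)) : ℕ × (Fin (r + 4) → ℕ)).2
          (Equiv.swap i j l)) : ℕ × (Fin (r + 4) → ℕ)) = t := by
      intro t _
      refine Prod.ext rfl ?_
      funext l
      show t.2 (Equiv.swap i j (Equiv.swap i j l)) = t.2 l
      rw [Equiv.swap_apply_self]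
    refine Finset.sum_nbij' (fun t => (t.1, fun l => t.2 (Equiv.swap i j l)))
      (fun t => (t.1, fun l => t.2 (Equiv.swap i j l))) hmaps hmaps hinv hinv ?_
    intro t _
    show t.2 i = t.2 (Equiv.swap i j j)
    rw [Equiv.swap_apply_right]
  · have h3 := rigid_dim hf0 hf T G' (fun _ => 1) (fun t => t.1) (fun t => t.2) hG' hne
    have e1 : (fun j => ∑ t ∈ T, 1 * t.2 j) = U := by
      rw [hU]
      funext j
      exact Finset.sum_congr rfl fun t _ => one_mul _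
    have e2 : (∑ t ∈ T, 1 * t.1) = E := by
      rw [hE]
      exact Finset.sum_congr rfl fun t _ => one_mul _
    rw [e1, e2] at h3
    exact h3
  · have e1 : VS (fun j => aff (P j)) w d =
        VS (fun j => aff (P j)) (fun j => (w j - U j) + U j) ((d - E) + E) := by
      congr 1
      · funext j
        have := hUw j
        omega
      · omega
    rw [e1]
    exact (vs_finrank (w := fun j => w j - U j) (u := U) hA0 hAh hAo fun K hK =>
      hAd K (by rw [e1]; exact hK)).symm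

/-- The index inequality. -/
theorem hodge {s : ℕ} {E x : ℕ} {U v : Fin s → ℕ} (hE : 0 < E) (hx : 0 < x)
    (h1 : 0 < ip E U E U) (h2 : 0 < ip x v x v) : 0 < ip E U x v := by
  rw [ip_self] at h1 h2
  have hd : ip E U x v = (E : ℤ) * x - ∑ j, (U j : ℤ) * v j := rfl
  rw [hd]
  have hcs := Finset.sum_mul_sq_le_sq_mul_sq Finset.univ (fun j => (U j : ℤ)) (fun j => (v j : ℤ))
  have e1 : ∑ j, (U j : ℤ) ^ 2 = ∑ j, (U j : ℤ) * U j := Finset.sum_congr rfl fun j _ => sq _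
  have e2 : ∑ j, (v j : ℤ) ^ 2 = ∑ j, (v j : ℤ) * v j := Finset.sum_congr rfl fun j _ => sq _
  rw [e1, e2] at hcs
  obtain ⟨a, ha⟩ : ∃ a : ℤ, a = ∑ j, (U j : ℤ) * U j := ⟨_, rfl⟩
  obtain ⟨b, hb⟩ : ∃ b : ℤ, b = ∑ j, (v j : ℤ) * v j := ⟨_, rfl⟩
  obtain ⟨c, hc⟩ : ∃ c : ℤ, c = ∑ j, (U j : ℤ) * v j := ⟨_, rfl⟩
  have ha0 : 0 ≤ a := by
    rw [ha]
    exact Finset.sum_nonneg fun j _ => by positivity
  have hb0 : 0 ≤ b := by
    rw [hb]
    exact Finset.sum_nonneg fun j _ => by positivity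
  rw [← ha] at hcs h1
  rw [← hb] at hcs h2
  rw [← hc] at hcs ⊢
  have hE' : (0 : ℤ) < E := by exact_mod_cast hE
  have hx' : (0 : ℤ) < x := by exact_mod_cast hx
  have h3 : a * b < ((E : ℤ) * E) * (x * x) := by
    rcases eq_or_lt_of_le hb0 with h | h
    · rw [← h, mul_zero]
      positivity
    · calc a * b < ((E : ℤ) * E) * b := mul_lt_mul_of_pos_right (by linarith) h
        _ ≤ ((E : ℤ) * E) * (x * x) := mul_le_mul_of_nonneg_left (by linarith) (by positivity)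
  by_contra hcon
  push Not at hcon
  have h4 : (E : ℤ) * x ≤ c := by linarith
  have h5 : ((E : ℤ) * x) * (E * x) ≤ c * c :=
    mul_le_mul h4 h4 (by positivity) (le_trans (by positivity) h4)
  nlinarith

/-- positive self-intersection -/
theorem pos_self {s n : ℕ} (hn : 10 ≤ n) {P : Fin s → Fin 2 → ℂ} (hP : Gen P)
    {S : Finset (Fin s)} (hS : S.card = n) {U : Fin s → ℕ} {μ E : ℕ} (hμ : 0 < μ)
    (hUS : ∀ j ∈ S, U j = μ) (hU1 : ∀ j, j ∉ S → U j ≤ 1)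
    (h : 0 < Module.finrank ℂ ↥(VS (fun j => aff (P j)) U E)) (hχ : 1 ≤ chi E U) :
    0 < ip E U E U := by
  by_contra hcon
  push Not at hcon
  have hN := nag_on hn hP hS hμ hUS h
  obtain ⟨t, ht, ht1, ht2⟩ := sum_two hUS hU1
  rw [hS] at ht1 ht2
  have h1 := two_chi E U
  rw [ip_self] at hcon h1
  rw [kk_def] at h1
  rw [ht2] at hcon h1
  rw [ht1] at h1
  have hn' : (10 : ℤ) ≤ n := by exact_mod_cast hn
  have hμ' : (0 : ℤ) < μ := by exact_mod_cast hμ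
  have hE' : (0 : ℤ) < E := by
    by_contra hc
    have : (E : ℤ) = 0 := by omega
    rw [this] at hN
    have : 0 ≤ (n : ℤ) * (μ * μ) := by positivity
    linarith
  obtain ⟨t', ht'⟩ : ∃ t' : ℤ, 2 * t' = (E : ℤ) * E - n * (μ * μ) + (3 * E - n * μ) ∨
      2 * t' + 1 = (E : ℤ) * E - n * (μ * μ) + (3 * E - n * μ) := by
    obtain ⟨k, hk | hk⟩ := Int.even_or_odd' ((E : ℤ) * E - n * (μ * μ) + (3 * E - n * μ))
    · exact ⟨k, Or.inl hk.symm⟩
    · exact ⟨k, Or.inr hk.symm⟩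
  have h3 : (E : ℤ) * E - n * (μ * μ) ≤ 3 * E - n * μ := by linarith
  have h4 : (μ : ℤ) * (E * E - n * (μ * μ)) ≤ μ * (3 * E - n * μ) :=
    mul_le_mul_of_nonneg_left h3 hμ'.le
  have h5 : 0 ≤ ((μ : ℤ) - 1) * (E * E - n * (μ * μ)) := mul_nonneg (by linarith) (by linarith)
  have h6 : (E : ℤ) * E ≤ E * (3 * μ) := by nlinarith
  have h7 : (E : ℤ) ≤ 3 * μ := le_of_mul_le_mul_left h6 hE'
  have h8 : (E : ℤ) * E ≤ 3 * μ * (3 * μ) := mul_le_mul h7 h7 hE'.le (by linarith)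
  have h9 : 10 * ((μ : ℤ) * μ) ≤ n * (μ * μ) := mul_le_mul_of_nonneg_right hn' (by positivity)
  have h10 : 0 < (μ : ℤ) * μ := by positivity
  linarith

end Pool.Agent.X157.H
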