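import Pool.Agent.X157.H.Rig
import Pool.Agent.TH698.NagT3
import Pool.Agent.TH442.NF.Std

set_option autoImplicit false

/-!
# Uniform multiplicities on a set of points, at most two elsewhere: all dimensions
-/

namespace Pool.Agent.X157.H

open MvPolynomial Pool.Agent.W609 Pool.Agent.W609.CR Pool.Agent.TH167 Pool.Agent.TH167.SH
  Pool.Agent.TH167.TT Pool.Agent.X157.W

theorem exists_Gen (s : ℕ) : ∃ P : Fin s → Fin 2 → ℂ, Gen P := by
  obtain ⟨z, hz⟩ := Pool.Agent.TH698.NagT3.exists_indep (Fin s × Fin 2)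
  exact ⟨fun i j => z (i, j), hz⟩

theorem uns_of {n : ℕ} (hn : 10 ≤ n) (h : 37 ≤ n ∨ n = 13 ∨ n = 21 ∨ IsSquare n) : Uns n :=
  fun _ hQ m d => not_sp hn h hQ m d

theorem good_of_uns {n : ℕ} (h : Uns n) : Good n :=
  ⟨fun Q hQ m d _ => h Q hQ m d, Or.inl h⟩

theorem good_eleven {n : ℕ} (h : n = 11 ∨ n = 15) : Good n := by
  refine ⟨fun Q hQ m d h2 hSp => ?_, Or.inr (by omega)⟩
  rcases Nat.eq_zero_or_pos m with hm | hm
  · subst hm
    have h1 : Module.finrank ℂ ↥(VS (fun j => aff (Q j)) (fun _ : Fin n => 0) d) =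
        (d + 2).choose 2 := by
      rw [vs_zero]
    have h3 := hSp.2
    rw [h1] at h3
    unfold chi at h3
    simp at h3
  · have h3 := sp_one h hQ hm hSp
    omega

theorem snoc_zero {s : ℕ} (P0 : Fin (s + 1) → Fin 2 → ℂ) (w : Fin s → ℕ) (d : ℕ) :
    VS (fun j => aff (P0 j)) (Fin.snoc (α := fun _ => ℕ) w 0) d =
      VS (fun j : Fin s => aff (P0 j.castSucc)) w d := by
  ext f
  rw [mem_VS, mem_VS]
  constructor
  · rintro ⟨a1, a2⟩
    refine ⟨a1, fun j => ?_⟩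
    have a3 := a2 j.castSucc
    rw [Fin.snoc_castSucc] at a3
    exact a3
  · rintro ⟨a1, a2⟩
    refine ⟨a1, fun j => ?_⟩
    refine Fin.lastCases ?_ (fun i => ?_) j
    · rw [Fin.snoc_last]
      exact van_zero _ _
    · rw [Fin.snoc_castSucc]
      exact a2 i

theorem chi_snoc {s : ℕ} (w : Fin s → ℕ) (d : ℕ) :
    chi d (Fin.snoc (α := fun _ => ℕ) w 0) = chi d w := by
  unfold chi
  rw [Fin.sum_univ_castSucc]
  simp only [Fin.snoc_castSucc, Fin.snoc_last]
  simp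

theorem full_chi {n : ℕ} (hn : 10 ≤ n) (hG : Good n) (d m : ℕ) (hm : 1 ≤ m) :
    ∀ (h s : ℕ) (P : Fin s → Fin 2 → ℂ) (_ : Gen P) (S : Finset (Fin s)) (_ : S.card = n)
    (w : Fin s → ℕ) (_ : ∀ j ∈ S, w j = m) (_ : ∀ j, j ∉ S → w j ≤ 2)
    (_ : Uns n ∨ (∃ j, j ∉ S ∧ 0 < w j) ∨ 0 < h)
    (_ : Module.finrank ℂ ↥(VS (fun j => aff (P j)) w d) = h + 1), chi d w = h + 1 := by
  classical
  intro h
  induction h with
  | zero =>
    intro s P hP S hS w hwS hw2 hc h1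
    have h2 := rigid_chi hn hG hP hS d m hm w hwS hw2 (by
      rcases hc with h | h | h
      · exact Or.inl h
      · exact Or.inr h
      · omega) h1
    rw [h2]
    norm_num
  | succ h ih =>
    intro s P hP S hS w hwS hw2 _ h1
    obtain ⟨P0, hP0⟩ := exists_Gen (s + 1)
    have hP1 : Gen fun j : Fin s => P0 j.castSucc := gen_emb hP0 Fin.castSuccEmb
    have h5 := gen_eq (P := fun j : Fin s => P0 j.castSucc) (P' := P) hP1 hP w d
    rw [h1, ← snoc_zero] at h5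
    obtain ⟨w0, hw0⟩ : ∃ w0 : Fin (s + 1) → ℕ, w0 = Fin.snoc (α := fun _ => ℕ) w 0 := ⟨_, rfl⟩
    rw [← hw0] at h5
    have hlast : w0 (Fin.last s) = 0 := by
      rw [hw0, Fin.snoc_last]
    have hcast : ∀ j : Fin s, w0 j.castSucc = w j := by
      intro j
      rw [hw0, Fin.snoc_castSucc]
    have h6 := simple_drop hP0 hlast (d := d) (by omega)
    have h7 := simple_le P0 hlast d
    have hne : ∀ j : Fin s, j.castSucc ≠ Fin.last s := fun j => (Fin.castSucc_lt_last j).ne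
    have h8 := ih (s + 1) P0 hP0 (S.map Fin.castSuccEmb) (by rw [Finset.card_map]; exact hS)
      (Function.update w0 (Fin.last s) 1) (by
        intro j hj
        obtain ⟨i, hi, rfl⟩ := Finset.mem_map.1 hj
        show Function.update w0 (Fin.last s) 1 i.castSucc = m
        rw [Function.update_of_ne (hne i), hcast]
        exact hwS i hi) (by
        intro j hj
        by_cases hjl : j = Fin.last s
        · rw [hjl, Function.update_self]
          norm_num
        · rw [Function.update_of_ne hjl]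
          obtain ⟨i, rfl⟩ : ∃ i : Fin s, i.castSucc = j :=
            ⟨j.castPred hjl, Fin.castSucc_castPred j hjl⟩
          rw [hcast]
          exact hw2 i fun hi => hj (Finset.mem_map.2 ⟨i, hi, rfl⟩)) (by
        right; left
        refine ⟨Fin.last s, fun hl => ?_, by rw [Function.update_self]; norm_num⟩
        obtain ⟨i, -, hi⟩ := Finset.mem_map.1 hl
        exact hne i hi) (by omega)
    rw [chi_update hlast, hw0, chi_snoc] at h8
    push_cast
    linarith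

/-- the dimension at generic points over the complex numbers -/
theorem dim_C {n : ℕ} (hn : 10 ≤ n) (hG : Good n) {d m : ℕ} (hm : 1 ≤ m) {s : ℕ}
    {P : Fin s → Fin 2 → ℂ} (hP : Gen P) {S : Finset (Fin s)} (hS : S.card = n)
    {w : Fin s → ℕ} (hwS : ∀ j ∈ S, w j = m) (hw2 : ∀ j, j ∉ S → w j ≤ 2)
    (hc : Uns n ∨ ∃ j, j ∉ S ∧ 0 < w j) :
    (Module.finrank ℂ ↥(VS (fun j => aff (P j)) w d) : ℤ) = max 0 (chi d w) := by
  have hle := chi_le_dim P d w
  obtain ⟨h, hh⟩ : ∃ h, h = Module.finrank ℂ ↥(VS (fun j => aff (P j)) w d) := ⟨_, rfl⟩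
  rw [← hh] at hle ⊢
  rcases Nat.eq_zero_or_pos h with h0 | h0
  · rw [h0] at hle ⊢
    push_cast at hle ⊢
    rw [max_eq_left hle]
  · obtain ⟨k, rfl⟩ : ∃ k, h = k + 1 := ⟨h - 1, by omega⟩
    have h1 := full_chi hn hG d m hm k s P hP S hS w hwS hw2 (by
      rcases hc with h | h
      · exact Or.inl h
      · exact Or.inr (Or.inl h)) hh.symm
    rw [h1, max_eq_right (by positivity)]
    push_cast
    rfl

/-- in an open set, in one degree -/
theorem dim_open {n : ℕ} (hn : 10 ≤ n) (hG : Good n) {m : ℕ} (hm : 1 ≤ m) {s : ℕ}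
    {S : Finset (Fin s)} (hS : S.card = n)
    {w : Fin s → ℕ} (hwS : ∀ j ∈ S, w j = m) (hw2 : ∀ j, j ∉ S → w j ≤ 2)
    (hc : Uns n ∨ ∃ j, j ∉ S ∧ 0 < w j) (d : ℕ) :
    ∃ F : MvPolynomial (Fin s × Fin 2) ℚ, F ≠ 0 ∧ ∀ {L : Type} [Field L] [CharZero L]
      (P : Fin s → Fin 2 → L),
      MvPolynomial.aeval (fun ij : Fin s × Fin 2 => P ij.1 ij.2) F ≠ 0 →
        H932R3.ExpDim L w P d := by
  refine Pool.Agent.TH442.NF.to_open fun {K} _ _ P hP => ?_
  rw [Pool.Agent.TH442.NF.expDim_iff]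
  obtain ⟨P0, hP0⟩ := exists_Gen s
  rw [gen_eq hP hP0 w d]
  exact dim_C hn hG hm hP0 hS hwS hw2 hc

/-- Once the conditions are independent they stay so; once a system is empty the smaller ones are. -/
theorem all_deg {s : ℕ} (P : Fin s → Fin 2 → ℂ) (w : Fin s → ℕ) (N : ℕ)
    (hN : 0 ≤ chi N w)
    (h : ∀ d ≤ N, (Module.finrank ℂ ↥(VS (fun j => aff (P j)) w d) : ℤ) = max 0 (chi d w)) (d : ℕ) :
    (Module.finrank ℂ ↥(VS (fun j => aff (P j)) w d) : ℤ) = max 0 (chi d w) := by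
  rcases le_total d N with hd | hd
  · exact h d hd
  · have h1 := h N le_rfl
    rw [max_eq_right hN] at h1
    obtain ⟨k, rfl⟩ := Nat.exists_eq_add_of_le hd
    have h2 := persist P w h1 k
    rw [h2, max_eq_right]
    rw [← h2]
    positivity

theorem chi_large {s : ℕ} (w : Fin s → ℕ) : ∃ N : ℕ, 0 ≤ chi N w := by
  refine ⟨∑ j, (w j + 1).choose 2, ?_⟩
  unfold chi
  have h1 : (∑ j, (w j + 1).choose 2) ≤ ((∑ j, (w j + 1).choose 2) + 2).choose 2 := by
    rw [Nat.choose_succ_succ' _ 1, Nat.choose_one_right]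
    omega
  have h2 : ((∑ j, (w j + 1).choose 2 : ℕ) : ℤ) ≤
      ((((∑ j, (w j + 1).choose 2) + 2).choose 2 : ℕ) : ℤ) := by exact_mod_cast h1
  push_cast at h2 ⊢
  linarith

/-- in an open set, in all degrees -/
theorem dim_all {n : ℕ} (hn : 10 ≤ n) (hG : Good n) {m : ℕ} (hm : 1 ≤ m) {s : ℕ}
    {S : Finset (Fin s)} (hS : S.card = n)
    {w : Fin s → ℕ} (hwS : ∀ j ∈ S, w j = m) (hw2 : ∀ j, j ∉ S → w j ≤ 2)
    (hc : Uns n ∨ ∃ j, j ∉ S ∧ 0 < w j) :
    ∃ F : MvPolynomial (Fin s × Fin 2) ℚ, F ≠ 0 ∧ ∀ P : Fin s → Fin 2 → ℂ,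
      MvPolynomial.aeval (fun ij : Fin s × Fin 2 => P ij.1 ij.2) F ≠ 0 →
        ∀ d, H932R3.ExpDim ℂ w P d := by
  classical
  choose F hF hF' using fun d => dim_open hn hG hm hS hwS hw2 hc d
  obtain ⟨N, hN⟩ := chi_large w
  refine ⟨∏ d ∈ Finset.range (N + 1), F d, Finset.prod_ne_zero_iff.2 fun d _ => hF d,
    fun P hP d => ?_⟩
  rw [map_prod, Finset.prod_ne_zero_iff] at hP
  rw [Pool.Agent.TH442.NF.expDim_iff]
  refine all_deg P w N hN (fun e he => ?_) d
  rw [← Pool.Agent.TH442.NF.expDim_iff]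
  exact hF' e P (hP e (Finset.mem_range.2 (by omega)))

end Pool.Agent.X157.H
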