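import Pool.Agent.X157.H.NoFix

set_option autoImplicit false

/-!
# Irreducible members
-/

namespace Pool.Agent.X157.H

open MvPolynomial Pool.Agent.W609 Pool.Agent.W609.CR Pool.Agent.TH167 Pool.Agent.TH167.SH
  Pool.Agent.TH167.TT Pool.Agent.X157.W

theorem final_num {s n h : ℕ} (hn : 10 ≤ n) {P : Fin s → Fin 2 → ℂ} (hP : Gen P)
    {S : Finset (Fin s)} (hS : S.card = n) {E x μ m' : ℕ} {U v : Fin s → ℕ} (hE : 0 < E)
    (hx0 : 0 < x) (hUS : ∀ j ∈ S, U j = μ) (hvS : ∀ j ∈ S, v j = m') (hm : 1 ≤ μ + m')
    (hApos : 0 < Module.finrank ℂ ↥(VS (fun j => aff (P j)) U E))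
    (hxpos : 0 < Module.finrank ℂ ↥(VS (fun j => aff (P j)) v x))
    (cA : chi E U = 1) (cM : chi x v = h + 1) (hAM : ip E U x v = 0)
    (hdi : (∀ j, j ∉ S → U j ≤ 1 ∧ v j ≤ 1) ∨ (∀ j, j ∉ S → (U j : ℤ) * v j = 0)) : False := by
  classical
  have hE' : (0 : ℤ) < E := by exact_mod_cast hE
  have hx' : (0 : ℤ) < x := by exact_mod_cast hx0
  have hd' : ip E U x v = (E : ℤ) * x - ∑ j, (U j : ℤ) * v j := rfl
  rcases hdi with hUv | hzero
  · -- simple along the double points
    have hUv' : (∑ j, (U j : ℤ) * v j) = E * x := by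
      rw [hd'] at hAM
      linarith
    rcases Nat.eq_zero_or_pos μ with h0 | h0
    · have hm1 : 0 < m' := by omega
      have pM := pos_self hn hP hS hm1 hvS (fun j hj => (hUv j hj).2) hxpos (by
        rw [cM]
        have : (0 : ℤ) ≤ h := Int.natCast_nonneg _
        linarith)
      have hA2 : ip E U E U ≤ 0 := by
        by_contra hc
        push Not at hc
        have := hodge hE hx0 hc pM
        omega
      have hUall : ∀ j, U j ≤ 1 := fun j => by
        by_cases hj : j ∈ S
        · rw [hUS j hj, h0]
          norm_num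
        · exact (hUv j hj).1
      have e1 : (∑ j, (U j : ℤ) * U j) = ∑ j, (U j : ℤ) := Finset.sum_congr rfl fun j _ => by
        have := hUall j
        interval_cases h : U j <;> norm_num
      have e2 : (∑ j, (U j : ℤ) * v j) ≤ ∑ j, (U j : ℤ) := Finset.sum_le_sum fun j _ => by
        by_cases hj : j ∈ S
        · rw [hUS j hj, h0]
          simp
        · have h7 := (hUv j hj).2
          have h8 : (v j : ℤ) ≤ 1 := by exact_mod_cast h7
          have h9 : (0 : ℤ) ≤ U j := Int.natCast_nonneg _
          nlinarith
      have c3 := two_chi E U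
      rw [cA, ip_self, kk_def, e1] at c3
      rw [ip_self, e1] at hA2
      rw [hUv'] at e2
      have hN := nag_on hn hP hS hm1 hvS hxpos
      have hn' : (10 : ℤ) ≤ n := by exact_mod_cast hn
      have hm' : (1 : ℤ) ≤ (m' : ℤ) := by exact_mod_cast hm1
      have h10 : (10 : ℤ) < (x : ℤ) * x := by
        have : (10 : ℤ) ≤ (n : ℤ) * ((m' : ℤ) * (m' : ℤ)) := by nlinarith
        linarith
      have hE3 : (E : ℤ) ≤ 3 := by nlinarith
      have hx3 : (x : ℤ) ≤ 3 := by nlinarith
      nlinarith
    · have hUone : ∀ j, j ∉ S → U j ≤ 1 := fun j hj => (hUv j hj).1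
      have pA := pos_self hn hP hS h0 hUS hUone (E := E) (by omega) (by rw [cA])
      rcases Nat.eq_zero_or_pos m' with h1 | h1
      · have hM2 : ip x v x v ≤ 0 := by
          by_contra hc
          push Not at hc
          have := hodge hE hx0 pA hc
          omega
        have hvall : ∀ j, v j ≤ 1 := fun j => by
          by_cases hj : j ∈ S
          · rw [hvS j hj, h1]
            norm_num
          · exact (hUv j hj).2
        have e1 : (∑ j, (v j : ℤ) * v j) = ∑ j, (v j : ℤ) := Finset.sum_congr rfl fun j _ => by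
          have := hvall j
          interval_cases h : v j <;> norm_num
        have e2 : (∑ j, (U j : ℤ) * v j) ≤ ∑ j, (v j : ℤ) := Finset.sum_le_sum fun j _ => by
          by_cases hj : j ∈ S
          · rw [hvS j hj, h1]
            simp
          · have h7 := (hUv j hj).1
            have h8 : (U j : ℤ) ≤ 1 := by exact_mod_cast h7
            have h9 : (0 : ℤ) ≤ v j := Int.natCast_nonneg _
            nlinarith
        have c3 := two_chi x v
        rw [cM, ip_self, kk_def, e1] at c3
        rw [ip_self, e1] at hM2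
        rw [hUv'] at e2
        have hN := nag_on hn hP hS h0 hUS (E := E) (by omega)
        have hn' : (10 : ℤ) ≤ n := by exact_mod_cast hn
        have hm' : (1 : ℤ) ≤ μ := by exact_mod_cast h0
        have h10 : (10 : ℤ) < (E : ℤ) * E := by
          have : (10 : ℤ) ≤ (n : ℤ) * ((μ : ℤ) * μ) := by nlinarith
          linarith
        have hh1 : (0 : ℤ) ≤ h := Int.natCast_nonneg _
        have hx3 : (x : ℤ) ≤ 3 := by nlinarith
        have hE4 : (4 : ℤ) ≤ E := by nlinarith
        nlinarith
      · have pM := pos_self hn hP hS h1 hvS (fun j hj => (hUv j hj).2) hxpos (by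
          rw [cM]
          have : (0 : ℤ) ≤ h := Int.natCast_nonneg _
          linarith)
        have := hodge hE hx0 pA pM
        omega
  · -- disjoint outside `S`
    have q3 : (∑ j, (U j : ℤ) * v j) = n * (μ * (m' : ℤ)) := by
      have e5 : (∑ j, (U j : ℤ) * v j) = ∑ j ∈ S, (U j : ℤ) * v j := by
        symm
        apply Finset.sum_subset (Finset.subset_univ _)
        intro i _ hi
        exact hzero i hi
      rw [e5, Finset.sum_congr rfl (fun j hj => by rw [hUS j hj, hvS j hj]), Finset.sum_const,
        nsmul_eq_mul, hS]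
    rw [hd', q3] at hAM
    rcases Nat.eq_zero_or_pos μ with h0 | h0
    · rw [h0] at hAM
      push_cast at hAM
      nlinarith
    · rcases Nat.eq_zero_or_pos m' with h1 | h1
      · rw [h1] at hAM
        push_cast at hAM
        nlinarith
      · have hN1 := nag_on hn hP hS h0 hUS (E := E) (by omega)
        have hN2 := nag_on hn hP hS h1 hvS hxpos
        have hm'0 : (0 : ℤ) < m' := by exact_mod_cast h1
        have hμ0 : (0 : ℤ) < μ := by exact_mod_cast h0
        have hn0 : (0 : ℤ) < n := by
          have : 0 < n := by omega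
          exact_mod_cast this
        have k1 : ((n : ℤ) * (μ * μ)) * (n * (m' * m')) < ((E : ℤ) * E) * (x * x) :=
          mul_lt_mul'' hN1 hN2 (by positivity) (by positivity)
        have k2 : (E : ℤ) * x = n * (μ * m') := by linarith
        have k3 : ((E : ℤ) * E) * (x * x) = (E * x) * (E * x) := by ring
        rw [k3, k2] at k1
        have k4 : ((n : ℤ) * (μ * μ)) * (n * (m' * m')) = (n * (μ * m')) * (n * (μ * m')) := by
          ring
        linarith

end Pool.Agent.X157.H
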