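import Pool.Agent.X157.H.Fix
import Pool.Agent.X157.H.Ah

set_option autoImplicit false

/-!
# No fixed components
-/

namespace Pool.Agent.X157.H

open MvPolynomial Pool.Agent.W609 Pool.Agent.W609.CR Pool.Agent.TH167 Pool.Agent.TH167.SH
  Pool.Agent.TH167.TT Pool.Agent.X157.W

theorem thr_num {s E x μ m' : ℝ} (hs : 3 < s) (hμ : 0 ≤ μ) (hm' : 0 ≤ m')
    (h1 : s * μ < E) (h2 : s * m' + (s - 3) / 2 ≤ x) :
    0 < 2 * (E * x - s * s * (μ * m')) + (E * E - s * s * (μ * μ) + (3 * E - s * s * μ)) := by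
  obtain ⟨a, ha⟩ : ∃ a, a = E - s * μ := ⟨_, rfl⟩
  obtain ⟨b, hb⟩ : ∃ b, b = x - s * m' - (s - 3) / 2 := ⟨_, rfl⟩
  have ha0 : 0 < a := by rw [ha]; linarith
  have hb0 : 0 ≤ b := by rw [hb]; linarith
  have eE : E = s * μ + a := by rw [ha]; ring
  have ex : x = s * m' + (s - 3) / 2 + b := by rw [hb]; ring
  have e : 2 * (E * x - s * s * (μ * m')) + (E * E - s * s * (μ * μ) + (3 * E - s * s * μ)) =
      2 * (s * μ * b) + 2 * (s * m' * a) + a * (s - 3) + 2 * (a * b) + 2 * (s * μ * a) + a * a +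
        3 * a := by
    rw [eE, ex]
    ring
  rw [e]
  have p1 : 0 ≤ s * μ * b := by positivity
  have p2 : 0 ≤ s * m' * a := by positivity
  have p3 : 0 < a * (s - 3) := mul_pos ha0 (by linarith)
  have p4 : 0 ≤ a * b := by positivity
  have p5 : 0 ≤ s * μ * a := by positivity
  have p6 : 0 < a * a := by positivity
  linarith

theorem nag_real {s n : ℕ} (hn : 10 ≤ n) {P : Fin s → Fin 2 → ℂ} (hP : Gen P)
    {S : Finset (Fin s)} (hS : S.card = n) {U : Fin s → ℕ} {μ E : ℕ} (hμ : 0 < μ)
    (hUS : ∀ j ∈ S, U j = μ)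
    (h : 0 < Module.finrank ℂ ↥(VS (fun j => aff (P j)) U E)) : √(n : ℝ) * μ < E := by
  have h1 := nag_on hn hP hS hμ hUS h
  have h2 : (n : ℝ) * ((μ : ℝ) * μ) < (E : ℝ) * E := by exact_mod_cast h1
  have h3 := Real.mul_self_sqrt (Nat.cast_nonneg (α := ℝ) n)
  have h4 : (√(n : ℝ) * μ) * (√(n : ℝ) * μ) < (E : ℝ) * E := by
    calc (√(n : ℝ) * μ) * (√(n : ℝ) * μ) = (√(n : ℝ) * √(n : ℝ)) * ((μ : ℝ) * μ) := by ring
      _ = (n : ℝ) * ((μ : ℝ) * μ) := by rw [h3]
      _ < (E : ℝ) * E := h2
  exact lt_of_mul_self_lt_mul_self₀ (Nat.cast_nonneg E) h4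

/-- **No fixed components.** -/
theorem no_fix {r n : ℕ} (hn : 10 ≤ n) (hC : Uns n ∨ n = 11 ∨ n = 15)
    {P : Fin (r + 4) → Fin 2 → ℂ} (hP : Gen P) {S : Finset (Fin (r + 4))} (hS : S.card = n)
    {m : ℕ} (hm : 1 ≤ m) {w : Fin (r + 4) → ℕ} (hwS : ∀ j ∈ S, w j = m)
    (hw2 : ∀ j, j ∉ S → w j ≤ 2) {d : ℕ}
    (h2 : 2 ≤ Module.finrank ℂ ↥(VS (fun j => aff (P j)) w d))
    {G : MvPolynomial (Fin 3) ℂ} (hG : Irreducible G) :
    ∃ F ∈ VS (fun j => aff (P j)) w d, ¬ G ∣ F := by
  classical
  by_contra hcon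
  push Not at hcon
  obtain ⟨E, U, hE, hEd, hUw, hinv, a1, ⟨A, hA, hA0, hAsq⟩, a2⟩ :=
    exists_fix hP (by omega) hG hcon
  have hGd : Good n := by
    rcases hC with h | h
    · exact good_of_uns h
    · exact good_eleven h
  obtain ⟨x, hx⟩ : ∃ x, x = d - E := ⟨_, rfl⟩
  have hdx : d = x + E := by omega
  obtain ⟨v, hv⟩ : ∃ v : Fin (r + 4) → ℕ, v = fun j => w j - U j := ⟨_, rfl⟩
  have hvj : ∀ j, v j = w j - U j := fun j => by rw [hv]
  have hwv : w = fun j => v j + U j := by
    funext j
    rw [hvj]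
    have := hUw j
    omega
  rw [← hx, ← hv] at a2
  obtain ⟨h, hh⟩ : ∃ h, Module.finrank ℂ ↥(VS (fun j => aff (P j)) w d) = h + 1 :=
    ⟨Module.finrank ℂ ↥(VS (fun j => aff (P j)) w d) - 1, by omega⟩
  have hh0 : 0 < h := by omega
  rw [hh] at a2 h2
  obtain ⟨i0, hi0⟩ : S.Nonempty := Finset.card_pos.1 (by omega)
  obtain ⟨μ, hμ⟩ : ∃ μ, μ = U i0 := ⟨_, rfl⟩
  have hUS : ∀ j ∈ S, U j = μ := fun j hj => by
    rw [hμ]
    exact hinv _ _ (by rw [hwS j hj, hwS i0 hi0])
  have hμm : μ ≤ m := by
    rw [hμ, ← hwS i0 hi0]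
    exact hUw i0
  have hvS : ∀ j ∈ S, v j = m - μ := fun j hj => by rw [hvj, hUS j hj, hwS j hj]
  have hU2 : ∀ j, j ∉ S → U j ≤ 2 := fun j hj => (hUw j).trans (hw2 j hj)
  have hv2 : ∀ j, j ∉ S → v j ≤ 2 := fun j hj => by
    rw [hvj]
    have := hw2 j hj
    omega
  have cD : chi d w = h + 1 :=
    full_chi hn hGd d m hm h (r + 4) P hP S hS w hwS hw2 (Or.inr (Or.inr hh0)) hh
  have cM : chi x v = h + 1 := by
    rcases Nat.eq_zero_or_pos (m - μ) with h0 | h0
    · refine ah_full x h (r + 4) P hP v (fun j => ?_) (Or.inr hh0) a2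
      by_cases hj : j ∈ S
      · rw [hvS j hj, h0]
        norm_num
      · exact hv2 j hj
    · exact full_chi hn hGd x (m - μ) h0 h (r + 4) P hP S hS v hvS hv2 (Or.inr (Or.inr hh0)) a2
  have hsum := chi_sum x E v U
  rw [← hwv, ← hdx, cD, cM] at hsum
  have hE' : (0 : ℤ) < E := by exact_mod_cast hE
  have hd' : ip E U x v = (E : ℤ) * x - ∑ j, (U j : ℤ) * v j := rfl
  -- `x` is positive
  have hx0 : 0 < x := by
    by_contra hc
    have hx0 : x = 0 := by omega
    have c1 := two_chi x v
    rw [cM, ip_self, kk_def, hx0] at c1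
    have d6 : (0 : ℤ) ≤ ∑ j, (v j : ℤ) * v j := Finset.sum_nonneg fun j _ => by positivity
    have d7 : (0 : ℤ) ≤ ∑ j, (v j : ℤ) := Finset.sum_nonneg fun j _ => by positivity
    have hh1 : (1 : ℤ) ≤ h := by exact_mod_cast hh0
    push_cast at c1
    linarith
  have hx' : (0 : ℤ) < x := by exact_mod_cast hx0
  have hxpos : 0 < Module.finrank ℂ ↥(VS (fun j => aff (P j)) v x) := by omega
  -- the threshold argument
  by_cases hoff : 1 ≤ μ ∧ ¬ (Uns n ∨ ∃ j, j ∉ S ∧ 0 < U j)
  · obtain ⟨hμ1, hoff⟩ := hoff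
    push Not at hoff
    obtain ⟨hnu, hU0⟩ := hoff
    have hn' : n = 11 ∨ n = 15 := by
      rcases hC with h | h
      · exact absurd h hnu
      · exact h
    have hU0' : ∀ j, j ∉ S → U j = 0 := fun j hj => by
      have := hU0 j hj
      omega
    obtain ⟨s, hs, hss, hs3⟩ := sqrt_facts hn
    have k1 := nag_real hn hP hS hμ1 hUS (E := E) (by omega)
    have hs1 : (s - 3) / 2 ≤ 1 := by
      have : s < 5 := by
        rw [hs]
        rw [Real.sqrt_lt' (by norm_num)]
        rcases hn' with h | h <;> rw [h] <;> norm_num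
      linarith
    have k2 : s * ((m - μ : ℕ) : ℝ) + (s - 3) / 2 ≤ x := by
      rcases Nat.eq_zero_or_pos (m - μ) with h0 | h0
      · rw [h0]
        have : (1 : ℝ) ≤ x := by exact_mod_cast hx0
        push_cast
        linarith
      · by_contra hc
        push Not at hc
        obtain ⟨e, he, he'⟩ := ex_emb S hS
        have c1 := vs_emb (P := P) he he' (v := fun j => if j ∈ S then m - μ else 0)
          (μ := m - μ) (fun j hj => by rw [if_pos hj]) (fun j hj => by rw [if_neg hj]) x
        have c2 : Module.finrank ℂ ↥(VS (fun j => aff (P j)) v x) ≤ Module.finrank ℂ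
            ↥(VS (fun j => aff (P j)) (fun j => if j ∈ S then m - μ else 0) x) := by
          have hf := vs_fin (fun j => aff (P j)) (fun j => if j ∈ S then m - μ else 0) x
          refine Submodule.finrank_mono (vs_le fun j => ?_)
          by_cases hj : j ∈ S
          · rw [if_pos hj, hvS j hj]
          · rw [if_neg hj]
            exact Nat.zero_le _
        rw [c1, a2] at c2
        have c3 := le_one hn' (gen_emb hP e) (m := m - μ) (d := x) h0 (by
          rw [← hs]
          exact hc)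
        omega
    have cA := two_chi E U
    rw [ip_self, kk_def] at cA
    have q1 : (∑ j, (U j : ℤ)) = n * μ := by
      have e5 : (∑ j, (U j : ℤ)) = ∑ j ∈ S, (U j : ℤ) := by
        symm
        apply Finset.sum_subset (Finset.subset_univ _)
        intro i _ hi
        rw [hU0' i hi]
        rfl
      rw [e5, Finset.sum_congr rfl (fun j hj => by rw [hUS j hj]), Finset.sum_const,
        nsmul_eq_mul, hS]
    have q2 : (∑ j, (U j : ℤ) * U j) = n * (μ * μ) := by
      have e5 : (∑ j, (U j : ℤ) * U j) = ∑ j ∈ S, (U j : ℤ) * U j := by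
        symm
        apply Finset.sum_subset (Finset.subset_univ _)
        intro i _ hi
        rw [hU0' i hi]
        rfl
      rw [e5, Finset.sum_congr rfl (fun j hj => by rw [hUS j hj]), Finset.sum_const,
        nsmul_eq_mul, hS]
    have q3 : (∑ j, (U j : ℤ) * v j) = n * (μ * ((m - μ : ℕ) : ℤ)) := by
      have e5 : (∑ j, (U j : ℤ) * v j) = ∑ j ∈ S, (U j : ℤ) * v j := by
        symm
        apply Finset.sum_subset (Finset.subset_univ _)
        intro i _ hi
        rw [hU0' i hi]
        simp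
      rw [e5, Finset.sum_congr rfl (fun j hj => by rw [hUS j hj, hvS j hj]), Finset.sum_const,
        nsmul_eq_mul, hS]
    rw [q1, q2] at cA
    rw [hd', q3] at hsum
    have hfin : 2 * ((E : ℤ) * x - n * (μ * ((m - μ : ℕ) : ℤ))) +
        (E * E - n * (μ * μ) + (3 * E - n * μ)) = 0 := by linarith
    have hfinR : 2 * ((E : ℝ) * x - n * (μ * ((m - μ : ℕ) : ℝ))) +
        (E * E - n * (μ * μ) + (3 * E - n * μ)) = 0 := by exact_mod_cast hfin
    have k3 := thr_num hs3 (μ := (μ : ℝ)) (m' := ((m - μ : ℕ) : ℝ)) (Nat.cast_nonneg _)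
      (Nat.cast_nonneg _) (by rw [hs]; exact k1) k2
    rw [hss] at k3
    linarith
  -- the fixed part is not special
  have cA : chi E U = 1 := by
    rcases Nat.eq_zero_or_pos μ with h0 | h0
    · refine sqf_chi hP (fun j => ?_) a1 hA hA0 hAsq
      by_cases hj : j ∈ S
      · rw [hUS j hj, h0]
        norm_num
      · exact hU2 j hj
    · refine rigid_chi hn hGd hP hS E μ h0 U hUS hU2 ?_ a1
      by_contra hc
      exact hoff ⟨h0, hc⟩
  rw [cA] at hsum
  have hAM : ip E U x v = 0 := by linarith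
  by_cases hex : ∃ j, j ∉ S ∧ U j = 1 ∧ v j = 1
  · -- simple along the double points
    obtain ⟨j1, hj1, hj1U, hj1v⟩ := hex
    have hw1 : w j1 = 2 := by
      have := hvj j1
      have := hUw j1
      omega
    have hUv : ∀ j, j ∉ S → U j ≤ 1 ∧ v j ≤ 1 := by
      intro j hj
      have h3 := hvj j
      have h4 := hUw j
      have h5 := hw2 j hj
      by_cases hj2 : w j = 2
      · have h6 := hinv j j1 (by rw [hj2, hw1])
        omega
      · omega
    have hUv' : (∑ j, (U j : ℤ) * v j) = E * x := by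
      rw [hd'] at hAM
      linarith
    rcases Nat.eq_zero_or_pos μ with h0 | h0
    · have hm1 : 0 < m - μ := by omega
      have pM := pos_self hn hP hS hm1 hvS (fun j hj => (hUv j hj).2) hxpos (by
        rw [cM]
        have : (0 : ℤ) ≤ h := Int.natCast_nonneg _
        linarith)
      have hA2 : ip E U E U ≤ 0 := by
        by_contra hc
        push Not at hc
        have := hodge hE hx0 hc pM
        omega
      have hUall : ∀ j, U j ≤ 1 := fun j => by
        by_cases hj : j ∈ S
        · rw [hUS j hj, h0]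
          norm_num
        · exact (hUv j hj).1
      have e1 : (∑ j, (U j : ℤ) * U j) = ∑ j, (U j : ℤ) := Finset.sum_congr rfl fun j _ => by
        have := hUall j
        interval_cases h : U j <;> norm_num
      have e2 : (∑ j, (U j : ℤ) * v j) ≤ ∑ j, (U j : ℤ) := Finset.sum_le_sum fun j _ => by
        by_cases hj : j ∈ S
        · rw [hUS j hj, h0]
          simp
        · have h7 := (hUv j hj).2
          have h8 : (v j : ℤ) ≤ 1 := by exact_mod_cast h7
          have h9 : (0 : ℤ) ≤ U j := Int.natCast_nonneg _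
          nlinarith
      have c3 := two_chi E U
      rw [cA, ip_self, kk_def, e1] at c3
      rw [ip_self, e1] at hA2
      rw [hUv'] at e2
      have hN := nag_on hn hP hS hm1 hvS hxpos
      have hn' : (10 : ℤ) ≤ n := by exact_mod_cast hn
      have hm' : (1 : ℤ) ≤ ((m - μ : ℕ) : ℤ) := by exact_mod_cast hm1
      have h10 : (10 : ℤ) < (x : ℤ) * x := by
        have : (10 : ℤ) ≤ (n : ℤ) * (((m - μ : ℕ) : ℤ) * ((m - μ : ℕ) : ℤ)) := by nlinarith
        linarith
      have hE3 : (E : ℤ) ≤ 3 := by nlinarith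
      have hx3 : (x : ℤ) ≤ 3 := by nlinarith
      nlinarith
    · have hUone : ∀ j, j ∉ S → U j ≤ 1 := fun j hj => (hUv j hj).1
      have pA := pos_self hn hP hS h0 hUS hUone (E := E) (by omega) (by rw [cA])
      rcases Nat.eq_zero_or_pos (m - μ) with h1 | h1
      · have hM2 : ip x v x v ≤ 0 := by
          by_contra hc
          push Not at hc
          have := hodge hE hx0 pA hc
          omega
        have hvall : ∀ j, v j ≤ 1 := fun j => by
          by_cases hj : j ∈ S
          · rw [hvS j hj, h1]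
            norm_num
          · exact (hUv j hj).2
        have e1 : (∑ j, (v j : ℤ) * v j) = ∑ j, (v j : ℤ) := Finset.sum_congr rfl fun j _ => by
          have := hvall j
          interval_cases h : v j <;> norm_num
        have e2 : (∑ j, (U j : ℤ) * v j) ≤ ∑ j, (v j : ℤ) := Finset.sum_le_sum fun j _ => by
          by_cases hj : j ∈ S
          · rw [hvS j hj, h1]
            simp
          · have h7 := (hUv j hj).1
            have h8 : (U j : ℤ) ≤ 1 := by exact_mod_cast h7
            have h9 : (0 : ℤ) ≤ v j := Int.natCast_nonneg _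
            nlinarith
        have c3 := two_chi x v
        rw [cM, ip_self, kk_def, e1] at c3
        rw [ip_self, e1] at hM2
        rw [hUv'] at e2
        have hN := nag_on hn hP hS h0 hUS (E := E) (by omega)
        have hn' : (10 : ℤ) ≤ n := by exact_mod_cast hn
        have hm' : (1 : ℤ) ≤ μ := by exact_mod_cast h0
        have h10 : (10 : ℤ) < (E : ℤ) * E := by
          have : (10 : ℤ) ≤ (n : ℤ) * ((μ : ℤ) * μ) := by nlinarith
          linarith
        have hh1 : (1 : ℤ) ≤ h := by exact_mod_cast hh0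
        have hx3 : (x : ℤ) ≤ 2 := by nlinarith
        have hE4 : (4 : ℤ) ≤ E := by nlinarith
        nlinarith
      · have pM := pos_self hn hP hS h1 hvS (fun j hj => (hUv j hj).2) hxpos (by
          rw [cM]
          have : (0 : ℤ) ≤ h := Int.natCast_nonneg _
          linarith)
        have := hodge hE hx0 pA pM
        omega
  · -- disjoint outside `S`
    have hzero : ∀ j, j ∉ S → (U j : ℤ) * v j = 0 := by
      intro j hj
      have h3 := hvj j
      have h4 := hUw j
      have h5 := hw2 j hj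
      by_contra hne
      apply hex
      refine ⟨j, hj, ?_⟩
      have h6 : U j ≠ 0 := fun h => hne (by rw [h]; simp)
      have h7 : v j ≠ 0 := fun h => hne (by rw [h]; simp)
      omega
    have q3 : (∑ j, (U j : ℤ) * v j) = n * (μ * ((m - μ : ℕ) : ℤ)) := by
      have e5 : (∑ j, (U j : ℤ) * v j) = ∑ j ∈ S, (U j : ℤ) * v j := by
        symm
        apply Finset.sum_subset (Finset.subset_univ _)
        intro i _ hi
        exact hzero i hi
      rw [e5, Finset.sum_congr rfl (fun j hj => by rw [hUS j hj, hvS j hj]), Finset.sum_const,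
        nsmul_eq_mul, hS]
    rw [hd', q3] at hAM
    rcases Nat.eq_zero_or_pos μ with h0 | h0
    · rw [h0] at hAM
      push_cast at hAM
      nlinarith
    · rcases Nat.eq_zero_or_pos (m - μ) with h1 | h1
      · rw [h1] at hAM
        push_cast at hAM
        nlinarith
      · have hN1 := nag_on hn hP hS h0 hUS (E := E) (by omega)
        have hN2 := nag_on hn hP hS h1 hvS hxpos
        obtain ⟨m', hm'⟩ : ∃ m' : ℤ, m' = ((m - μ : ℕ) : ℤ) := ⟨_, rfl⟩
        rw [← hm'] at hN2 hAM
        have hm'0 : 0 < m' := by rw [hm']; exact_mod_cast h1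
        have hμ0 : (0 : ℤ) < μ := by exact_mod_cast h0
        have hn0 : (0 : ℤ) < n := by
          have : 0 < n := by omega
          exact_mod_cast this
        have k1 : ((n : ℤ) * (μ * μ)) * (n * (m' * m')) < ((E : ℤ) * E) * (x * x) :=
          mul_lt_mul'' hN1 hN2 (by positivity) (by positivity)
        have k2 : (E : ℤ) * x = n * (μ * m') := by linarith
        have k3 : ((E : ℤ) * E) * (x * x) = (E * x) * (E * x) := by ring
        rw [k3, k2] at k1
        have k4 : ((n : ℤ) * (μ * μ)) * (n * (m' * m')) = (n * (μ * m')) * (n * (μ * m')) := by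
          ring
        linarith

end Pool.Agent.X157.H
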