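import Pool.Agent.X157.H.Full

set_option autoImplicit false

/-!
# Double and simple points: reduction to the uniform systems below
-/

namespace Pool.Agent.X157.H

open MvPolynomial Pool.Agent.W609 Pool.Agent.W609.CR Pool.Agent.TH167 Pool.Agent.TH167.SH
  Pool.Agent.TH167.TT Pool.Agent.X157.W

/-- uniform on `S`, zero elsewhere -/
theorem uni_zero_ns {s n : ℕ} {P : Fin s → Fin 2 → ℂ} (hP : Gen P)
    {S : Finset (Fin s)} (hS : S.card = n) {v : Fin s → ℕ} {μ : ℕ}
    (hv : ∀ j ∈ S, v j = μ) (hv0 : ∀ j, j ∉ S → v j = 0) {d : ℕ}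
    (hpos : 0 < Module.finrank ℂ ↥(VS (fun j => aff (P j)) v d))
    (hc : ∀ Q : Fin n → Fin 2 → ℂ, Gen Q → ¬ Sp Q d μ) :
    (Module.finrank ℂ ↥(VS (fun j => aff (P j)) v d) : ℤ) = chi d v := by
  obtain ⟨e, he, he'⟩ := ex_emb S hS
  have h1 := vs_emb (P := P) he he' hv hv0 d
  have h2 := chi_emb hS hv hv0 d
  rw [h1] at hpos ⊢
  rw [h2]
  have h3 : ¬ Sp (fun j => P (e j)) d μ := hc _ (gen_emb hP e)
  have h4 := chi_le_dim (fun j => P (e j)) d (fun _ : Fin n => μ)
  unfold Sp at h3
  by_contra hne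
  exact h3 ⟨hpos, lt_of_le_of_ne h4 fun h => hne h.symm⟩

/-- uniform on `S`, at most one elsewhere -/
theorem uni_one_ns {s n : ℕ} {P : Fin s → Fin 2 → ℂ} (hP : Gen P)
    {S : Finset (Fin s)} (hS : S.card = n) {v : Fin s → ℕ} {μ : ℕ}
    (hv : ∀ j ∈ S, v j = μ) (hv1 : ∀ j, j ∉ S → v j ≤ 1) {d : ℕ}
    (hpos : 0 < Module.finrank ℂ ↥(VS (fun j => aff (P j)) v d))
    (hc : ∀ Q : Fin n → Fin 2 → ℂ, Gen Q → ¬ Sp Q d μ) :
    (Module.finrank ℂ ↥(VS (fun j => aff (P j)) v d) : ℤ) = chi d v := by
  classical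
  have key : ∀ A : Finset (Fin s), (∀ j ∈ A, j ∉ S) →
      0 < Module.finrank ℂ ↥(VS (fun j => aff (P j))
        (fun j => if j ∈ S then μ else if j ∈ A then 1 else 0) d) →
      (Module.finrank ℂ ↥(VS (fun j => aff (P j))
        (fun j => if j ∈ S then μ else if j ∈ A then 1 else 0) d) : ℤ) =
        chi d (fun j => if j ∈ S then μ else if j ∈ A then 1 else 0) := by
    intro A
    induction A using Finset.induction_on with
    | empty =>
      intro _ h
      exact uni_zero_ns hP hS (μ := μ) (fun j hj => by rw [if_pos hj])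
        (fun j hj => by rw [if_neg hj, if_neg (Finset.notMem_empty j)]) h hc
    | insert a A ha ih =>
      intro hA h
      obtain ⟨v0, hv0⟩ : ∃ v0 : Fin s → ℕ,
        v0 = fun j => if j ∈ S then μ else if j ∈ A then 1 else 0 := ⟨_, rfl⟩
      have haS := hA a (Finset.mem_insert_self _ _)
      have e1 : (fun j => if j ∈ S then μ else if j ∈ insert a A then 1 else 0) =
          Function.update v0 a 1 := by
        funext j
        by_cases hj : j = a
        · subst hj
          rw [Function.update_self, if_neg haS, if_pos (Finset.mem_insert_self _ _)]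
        · rw [Function.update_of_ne hj, hv0]
          simp only [Finset.mem_insert, hj, false_or]
      have hv0a : v0 a = 0 := by
        rw [hv0]
        simp only [if_neg haS, if_neg ha]
      rw [e1] at h ⊢
      rw [← hv0] at ih
      have h1 : 0 < Module.finrank ℂ ↥(VS (fun j => aff (P j)) v0 d) := by
        have hf := vs_fin (fun j => aff (P j)) v0 d
        refine lt_of_lt_of_le h (Submodule.finrank_mono (vs_le fun j => ?_))
        by_cases hj : j = a
        · subst hj
          rw [hv0a]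
          exact Nat.zero_le _
        · rw [Function.update_of_ne hj]
      have h3 := simple_drop hP hv0a h1
      have h2 := ih (fun j hj => hA j (Finset.mem_insert_of_mem hj)) h1
      have h4 := simple_le P hv0a d
      rw [chi_update hv0a, ← h2]
      omega
  have e1 : v = fun j => if j ∈ S then μ else
      if j ∈ Finset.univ.filter (fun j => j ∉ S ∧ v j = 1) then 1 else 0 := by
    funext j
    by_cases hj : j ∈ S
    · rw [if_pos hj, hv j hj]
    · rw [if_neg hj]
      by_cases hj1 : v j = 1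
      · rw [if_pos (Finset.mem_filter.2 ⟨Finset.mem_univ _, hj, hj1⟩), hj1]
      · rw [if_neg (fun h => hj1 (Finset.mem_filter.1 h).2.2)]
        have := hv1 j hj
        omega
  have h1 := key (Finset.univ.filter (fun j => j ∉ S ∧ v j = 1))
    (fun j hj => (Finset.mem_filter.1 hj).2.1)
  rw [← e1] at h1
  exact h1 hpos

theorem rigid_red {s n : ℕ} (hn : 10 ≤ n) {P : Fin s → Fin 2 → ℂ} (hP : Gen P)
    {S : Finset (Fin s)} (hS : S.card = n) : ∀ (d m : ℕ) (_ : 1 ≤ m) (w : Fin s → ℕ)
    (_ : ∀ j ∈ S, w j = m) (_ : ∀ j, j ∉ S → w j ≤ 2)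
    (_ : ∀ d' ≤ d, ∀ m' ≤ m, ∀ Q : Fin n → Fin 2 → ℂ, Gen Q → ¬ Sp Q d' m')
    (_ : Module.finrank ℂ ↥(VS (fun j => aff (P j)) w d) = 1), chi d w = 1 := by
  classical
  intro d
  induction d using Nat.strong_induction_on with
  | _ d ih =>
  intro m hm w hwS hw2 hc h1
  obtain ⟨f, hf, hf0⟩ := exists_mem
    (show 0 < Module.finrank ℂ ↥(VS (fun j => aff (P j)) w d) by omega)
  have hle := chi_le_dim P d w
  rw [h1] at hle
  by_cases hsq : Squarefree f
  · have h2 := tlem hP h1 hf hf0 hsq S hw2
    have h3 := uni_zero_ns hP hS (v := fun j => if j ∈ S then w j else 0) (μ := m)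
      (fun j hj => by rw [if_pos hj, hwS j hj]) (fun j hj => by rw [if_neg hj]) (d := d) (by omega)
      (hc d le_rfl m le_rfl)
    have h4 := chi_split S d w
    rw [← h3] at h4
    push_cast at hle
    omega
  exfalso
  obtain ⟨E, U, hE, hEd, h2U, hinv, a1, a2, a3, a4⟩ := exists_sq hP h1 hf hf0 hsq
  obtain ⟨i0, hi0⟩ : S.Nonempty := Finset.card_pos.1 (by omega)
  obtain ⟨μ, hμ⟩ : ∃ μ, μ = U i0 := ⟨_, rfl⟩
  have hUS : ∀ j ∈ S, U j = μ := fun j hj => by
    rw [hμ]
    exact hinv _ _ (by rw [hwS j hj, hwS i0 hi0])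
  have h2μ : 2 * μ ≤ m := by
    rw [hμ, ← hwS i0 hi0]
    exact h2U i0
  have hU1 : ∀ j, j ∉ S → U j ≤ 1 := fun j hj => by
    have := hw2 j hj
    have := h2U j
    omega
  -- the induction hypothesis
  have b0 := ih (d - E) (by omega) (m - μ) (by omega) (fun j => w j - U j)
    (fun j hj => by
      show w j - U j = m - μ
      rw [hUS j hj, hwS j hj])
    (fun j hj => by
      show w j - U j ≤ 2
      have := hw2 j hj
      omega)
    (fun d' hd' m' hm' => hc d' (by omega) m' (by omega)) a4
  have b1 := chi_le_dim P (d - 2 * E) (fun j => w j - 2 * U j)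
  rw [a3] at b1
  obtain ⟨x, hx⟩ : ∃ x, x = d - 2 * E := ⟨_, rfl⟩
  have hx1 : d = x + 2 * E := by omega
  have hx2 : d - E = x + E := by omega
  rw [← hx] at b1 a3
  rw [hx2] at b0
  rw [hx1] at hle
  obtain ⟨v, hv⟩ : ∃ v : Fin s → ℕ, v = fun j => w j - 2 * U j := ⟨_, rfl⟩
  have hwv : w = fun j => v j + 2 * U j := by
    funext j
    rw [hv]
    have := h2U j
    show w j = w j - 2 * U j + 2 * U j
    omega
  have hwv1 : (fun j => w j - U j) = fun j => v j + U j := by
    funext j
    rw [hv]
    have := h2U j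
    show w j - U j = w j - 2 * U j + U j
    omega
  rw [← hv] at b1 a3
  rw [hwv1] at b0
  rw [hwv] at hle
  have c0 := two_chi x v
  have c1 := two_chi (x + E) (fun j => v j + U j)
  have c2 := two_chi (x + 2 * E) (fun j => v j + 2 * U j)
  have e1 : ip (x + 2 * E) (fun j => v j + 2 * U j) (x + 2 * E) (fun j => v j + 2 * U j) +
      ip x v x v = 2 * ip (x + E) (fun j => v j + U j) (x + E) (fun j => v j + U j) +
        2 * ip E U E U := by
    rw [ip_self, ip_self, ip_self, ip_self]
    have e0 : (∑ j, ((v j + 2 * U j : ℕ) : ℤ) * ((v j + 2 * U j : ℕ) : ℤ)) +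
        ∑ j, (v j : ℤ) * v j = 2 * (∑ j, ((v j + U j : ℕ) : ℤ) * ((v j + U j : ℕ) : ℤ)) +
        2 * ∑ j, (U j : ℤ) * U j := by
      rw [Finset.mul_sum, Finset.mul_sum, ← Finset.sum_add_distrib, ← Finset.sum_add_distrib]
      refine Finset.sum_congr rfl fun j _ => ?_
      push_cast
      ring
    push_cast at e0 ⊢
    linarith
  have e2 : kk (x + 2 * E) (fun j => v j + 2 * U j) + kk x v =
      2 * kk (x + E) (fun j => v j + U j) := by
    rw [kk_def, kk_def, kk_def]
    have e0 : (∑ j, ((v j + 2 * U j : ℕ) : ℤ)) + ∑ j, (v j : ℤ) =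
        2 * (∑ j, ((v j + U j : ℕ) : ℤ)) := by
      rw [Finset.mul_sum, ← Finset.sum_add_distrib]
      refine Finset.sum_congr rfl fun j _ => ?_
      push_cast
      ring
    push_cast at e0 ⊢
    linarith
  push_cast at hle b1
  have hneg : ip E U E U ≤ 0 := by linarith
  obtain ⟨t, ht, ht1, ht2⟩ := sum_two hUS hU1
  rw [hS] at ht1 ht2
  have hE' : (0 : ℤ) < E := by exact_mod_cast hE
  have hn' : (10 : ℤ) ≤ n := by exact_mod_cast hn
  by_cases hU0 : ∃ j, j ∉ S ∧ U j = 1
  · -- the square part passes through the double points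
    have d1 := uni_one_ns hP hS hUS hU1 (d := E) (by omega) (hc E (by omega) μ (by omega))
    rw [a1] at d1
    have d2 := two_chi E U
    rw [← d1] at d2
    push_cast at d2
    have hself := ip_self E U
    have hkk := kk_def E U
    rw [ht2] at hself
    rw [ht1] at hkk
    rcases Nat.eq_zero_or_pos μ with h0 | h0
    · -- no multiplicities on `S`
      obtain ⟨j0, hj0S, hj0⟩ := hU0
      have hw0 : w j0 = 2 := by
        have := hw2 j0 hj0S
        have := h2U j0
        omega
      have hUw : ∀ j, U j = 1 ∨ (U j = 0 ∧ w j ≠ 2) := by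
        intro j
        by_cases hj : w j = 2
        · left
          rw [← hj0]
          exact hinv _ _ (by rw [hj, hw0])
        · right
          refine ⟨?_, hj⟩
          by_cases hjS : j ∈ S
          · rw [hUS j hjS, h0]
          · have := hw2 j hjS
            have := h2U j
            omega
      have hvS : ∀ j ∈ S, v j = m := fun j hj => by
        rw [hv]
        show w j - 2 * U j = m
        rw [hUS j hj, hwS j hj, h0]
        omega
      have hv1 : ∀ j, j ∉ S → v j ≤ 1 := fun j hj => by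
        rw [hv]
        show w j - 2 * U j ≤ 1
        have := hw2 j hj
        have := hUw j
        omega
      have hvU : ∀ j, (v j : ℤ) * U j = 0 := by
        intro j
        rcases hUw j with h | ⟨h, -⟩
        · have hj2 : v j = 0 := by
            rw [hv]
            show w j - 2 * U j = 0
            by_cases hjS : j ∈ S
            · have := hUS j hjS
              omega
            · have := hw2 j hjS
              omega
          rw [hj2]
          norm_num
        · rw [h]
          norm_num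
      have e3 : ip (x + E) (fun j => v j + U j) (x + E) (fun j => v j + U j) =
          ip x v x v + ip E U E U + 2 * ((x : ℤ) * E) := by
        rw [ip_self, ip_self, ip_self]
        have e0 : (∑ j, ((v j + U j : ℕ) : ℤ) * ((v j + U j : ℕ) : ℤ)) =
            (∑ j, (v j : ℤ) * v j) + ∑ j, (U j : ℤ) * U j := by
          rw [← Finset.sum_add_distrib]
          refine Finset.sum_congr rfl fun j _ => ?_
          push_cast
          have := hvU j
          linear_combination 2 * this
        rw [e0]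
        push_cast
        ring
      have e4 : kk (x + E) (fun j => v j + U j) = kk x v + kk E U := by
        rw [kk_def, kk_def, kk_def]
        have e0 : (∑ j, ((v j + U j : ℕ) : ℤ)) = (∑ j, (v j : ℤ)) + ∑ j, (U j : ℤ) := by
          rw [← Finset.sum_add_distrib]
          refine Finset.sum_congr rfl fun j _ => ?_
          push_cast
          ring
        rw [e0]
        push_cast
        ring
      have hχ : chi x v = 1 - (x : ℤ) * E := by linarith
      have hxE : 0 ≤ (x : ℤ) * E := by positivity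
      have g1 := uni_one_ns hP hS hvS hv1 (d := x) (by omega) (hc x (by omega) m le_rfl)
      rw [a3, hχ] at g1
      push_cast at g1
      have d4 : (x : ℤ) * E = 0 := by linarith
      have hx0 : (x : ℤ) = 0 := by
        rcases mul_eq_zero.1 d4 with h | h
        · exact h
        · omega
      rw [ip_self, kk_def, hx0] at c0
      rw [hx0] at hχ
      rw [hχ] at c0
      have d6 : (0 : ℤ) ≤ ∑ j, (v j : ℤ) * v j :=
        Finset.sum_nonneg fun j _ => by positivity
      have d7 : ((v i0 : ℕ) : ℤ) ≤ ∑ j, (v j : ℤ) :=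
        Finset.single_le_sum (f := fun j => (v j : ℤ))
          (fun j _ => Int.natCast_nonneg _) (Finset.mem_univ i0)
      rw [hvS i0 hi0] at d7
      omega
    · -- positive multiplicities on `S`
      have hN := nag_on hn hP hS h0 hUS (E := E) (by omega)
      have hμ' : (0 : ℤ) < μ := by exact_mod_cast h0
      exact num_one (n := n) (E := E) (μ := μ) (t := t) hn' hE' hμ' hN (by linarith) (by linarith)
  · -- no points outside `S`
    push Not at hU0
    have ht0 : t = 0 := by
      have e0 : (∑ j, (U j : ℤ)) = S.card * μ := by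
        have e5 : (∑ j, (U j : ℤ)) = ∑ j ∈ S, (U j : ℤ) := by
          symm
          apply Finset.sum_subset (Finset.subset_univ _)
          intro i _ hi
          have := hU0 i hi
          have := hU1 i hi
          have h7 : U i = 0 := by omega
          rw [h7]
          rfl
        rw [e5, Finset.sum_congr rfl (fun j hj => by rw [hUS j hj]), Finset.sum_const,
          nsmul_eq_mul]
      rw [hS] at e0
      linarith
    have hself := ip_self E U
    rw [ht2, ht0] at hself
    rcases Nat.eq_zero_or_pos μ with h0 | h0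
    · rw [h0] at hself
      have : 0 < (E : ℤ) * E := by positivity
      push_cast at hself
      linarith
    · have hN := nag_on hn hP hS h0 hUS (E := E) (by omega)
      linarith

theorem full_red {n : ℕ} (hn : 10 ≤ n) (d m : ℕ) (hm : 1 ≤ m)
    (hc : ∀ d' ≤ d, ∀ m' ≤ m, ∀ Q : Fin n → Fin 2 → ℂ, Gen Q → ¬ Sp Q d' m') :
    ∀ (h s : ℕ) (P : Fin s → Fin 2 → ℂ) (_ : Gen P) (S : Finset (Fin s)) (_ : S.card = n)
    (w : Fin s → ℕ) (_ : ∀ j ∈ S, w j = m) (_ : ∀ j, j ∉ S → w j ≤ 2)
    (_ : Module.finrank ℂ ↥(VS (fun j => aff (P j)) w d) = h + 1), chi d w = h + 1 := by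
  classical
  intro h
  induction h with
  | zero =>
    intro s P hP S hS w hwS hw2 h1
    have h2 := rigid_red hn hP hS d m hm w hwS hw2 hc h1
    rw [h2]
    norm_num
  | succ h ih =>
    intro s P hP S hS w hwS hw2 h1
    obtain ⟨P0, hP0⟩ := exists_Gen (s + 1)
    have hP1 : Gen fun j : Fin s => P0 j.castSucc := gen_emb hP0 Fin.castSuccEmb
    have h5 := gen_eq (P := fun j : Fin s => P0 j.castSucc) (P' := P) hP1 hP w d
    rw [h1, ← snoc_zero] at h5
    obtain ⟨w0, hw0⟩ : ∃ w0 : Fin (s + 1) → ℕ, w0 = Fin.snoc (α := fun _ => ℕ) w 0 := ⟨_, rfl⟩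
    rw [← hw0] at h5
    have hlast : w0 (Fin.last s) = 0 := by
      rw [hw0, Fin.snoc_last]
    have hcast : ∀ j : Fin s, w0 j.castSucc = w j := by
      intro j
      rw [hw0, Fin.snoc_castSucc]
    have h6 := simple_drop hP0 hlast (d := d) (by omega)
    have h7 := simple_le P0 hlast d
    have hne : ∀ j : Fin s, j.castSucc ≠ Fin.last s := fun j => (Fin.castSucc_lt_last j).ne
    have h8 := ih (s + 1) P0 hP0 (S.map Fin.castSuccEmb) (by rw [Finset.card_map]; exact hS)
      (Function.update w0 (Fin.last s) 1) (by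
        intro j hj
        obtain ⟨i, hi, rfl⟩ := Finset.mem_map.1 hj
        show Function.update w0 (Fin.last s) 1 i.castSucc = m
        rw [Function.update_of_ne (hne i), hcast]
        exact hwS i hi) (by
        intro j hj
        by_cases hjl : j = Fin.last s
        · rw [hjl, Function.update_self]
          norm_num
        · rw [Function.update_of_ne hjl]
          obtain ⟨i, rfl⟩ : ∃ i : Fin s, i.castSucc = j :=
            ⟨j.castPred hjl, Fin.castSucc_castPred j hjl⟩
          rw [hcast]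
          exact hw2 i fun hi => hj (Finset.mem_map.2 ⟨i, hi, rfl⟩)) (by omega)
    rw [chi_update hlast, hw0, chi_snoc] at h8
    push_cast
    linarith


theorem dim_red {n : ℕ} (hn : 10 ≤ n) {d m : ℕ} (hm : 1 ≤ m)
    (hc : ∀ d' ≤ d, ∀ m' ≤ m, ∀ Q : Fin n → Fin 2 → ℂ, Gen Q → ¬ Sp Q d' m') {s : ℕ}
    {P : Fin s → Fin 2 → ℂ} (hP : Gen P) {S : Finset (Fin s)} (hS : S.card = n)
    {w : Fin s → ℕ} (hwS : ∀ j ∈ S, w j = m) (hw2 : ∀ j, j ∉ S → w j ≤ 2) :
    (Module.finrank ℂ ↥(VS (fun j => aff (P j)) w d) : ℤ) = max 0 (chi d w) := by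
  have hle := chi_le_dim P d w
  obtain ⟨h, hh⟩ : ∃ h, h = Module.finrank ℂ ↥(VS (fun j => aff (P j)) w d) := ⟨_, rfl⟩
  rw [← hh] at hle ⊢
  rcases Nat.eq_zero_or_pos h with h0 | h0
  · rw [h0] at hle ⊢
    push_cast at hle ⊢
    rw [max_eq_left hle]
  · obtain ⟨k, rfl⟩ : ∃ k, h = k + 1 := ⟨h - 1, by omega⟩
    have h1 := full_red hn d m hm hc k s P hP S hS w hwS hw2 hh.symm
    rw [h1, max_eq_right (by positivity)]
    push_cast
    rfl

/-- in an open set -/
theorem open_red {n : ℕ} (hn : 10 ≤ n) {d m : ℕ} (hm : 1 ≤ m)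
    (hc : ∀ d' ≤ d, ∀ m' ≤ m, ∀ Q : Fin n → Fin 2 → ℂ, Gen Q → ¬ Sp Q d' m') {s : ℕ}
    {S : Finset (Fin s)} (hS : S.card = n)
    {w : Fin s → ℕ} (hwS : ∀ j ∈ S, w j = m) (hw2 : ∀ j, j ∉ S → w j ≤ 2) :
    ∃ F : MvPolynomial (Fin s × Fin 2) ℚ, F ≠ 0 ∧ ∀ {L : Type} [Field L] [CharZero L]
      (P : Fin s → Fin 2 → L),
      MvPolynomial.aeval (fun ij : Fin s × Fin 2 => P ij.1 ij.2) F ≠ 0 →
        H932R3.ExpDim L w P d := by
  refine Pool.Agent.TH442.NF.to_open fun {K} _ _ P hP => ?_
  rw [Pool.Agent.TH442.NF.expDim_iff]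
  obtain ⟨P0, hP0⟩ := exists_Gen s
  rw [gen_eq hP hP0 w d]
  exact dim_red hn hm hc hP0 hS hwS hw2

/-- Expected dimension at one configuration gives it at generic ones. -/
theorem not_sp_of {n : ℕ} {Q' : Fin n → Fin 2 → ℂ} {d m : ℕ}
    (h : (Module.finrank ℂ ↥(VS (fun j => aff (Q' j)) (fun _ => m) d) : ℤ) =
      max 0 (chi d (fun _ : Fin n => m))) (Q : Fin n → Fin 2 → ℂ) (hQ : Gen Q) : ¬ Sp Q d m := by
  rintro ⟨h1, h2⟩
  have h3 := semi hQ Q' (fun _ => m) d
  have h4 : (Module.finrank ℂ ↥(VS (fun j => aff (Q j)) (fun _ => m) d) : ℤ) ≤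
      max 0 (chi d (fun _ : Fin n => m)) := by
    rw [← h]
    exact_mod_cast h3
  rcases le_total (chi d (fun _ : Fin n => m)) 0 with h5 | h5
  · rw [max_eq_left h5] at h4
    omega
  · rw [max_eq_right h5] at h4
    omega

end Pool.Agent.X157.H
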