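import Pool.Agent.X157.H.Sq

set_option autoImplicit false

/-!
# Rigid systems: uniform multiplicities on a set of points, at most two elsewhere
-/

namespace Pool.Agent.X157.H

open MvPolynomial Pool.Agent.W609 Pool.Agent.W609.CR Pool.Agent.TH167 Pool.Agent.TH167.SH
  Pool.Agent.TH167.TT Pool.Agent.X157.W

theorem ip_self {s : ℕ} (d : ℕ) (w : Fin s → ℕ) :
    ip d w d w = (d : ℤ) * d - ∑ j, (w j : ℤ) * w j := rfl

theorem kk_def {s : ℕ} (d : ℕ) (w : Fin s → ℕ) : kk d w = 3 * (d : ℤ) - ∑ j, (w j : ℤ) := rfl

theorem chi_split {s : ℕ} (S : Finset (Fin s)) (d : ℕ) (w : Fin s → ℕ) :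
    chi d w = chi d (fun j => if j ∈ S then w j else 0) -
      ((∑ j, (if j ∈ S then 0 else (w j + 1).choose 2) : ℕ) : ℤ) := by
  classical
  unfold chi
  have h1 : ∑ j, (((w j + 1).choose 2 : ℕ) : ℤ) =
      ∑ j, (((((if j ∈ S then w j else 0) + 1).choose 2 : ℕ) : ℤ) +
        ((if j ∈ S then 0 else (w j + 1).choose 2 : ℕ) : ℤ)) := by
    refine Finset.sum_congr rfl fun j _ => ?_
    by_cases hj : j ∈ S
    · rw [if_pos hj, if_pos hj]
      simp
    · rw [if_neg hj, if_neg hj]
      simp
  rw [h1, Finset.sum_add_distrib, Nat.cast_sum]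
  ring

/-- Nagata's inequality for a class which is uniform on `S` -/
theorem nag_on {s n : ℕ} (hn : 10 ≤ n) {P : Fin s → Fin 2 → ℂ} (hP : Gen P)
    {S : Finset (Fin s)} (hS : S.card = n) {U : Fin s → ℕ} {μ E : ℕ} (hμ : 0 < μ)
    (hUS : ∀ j ∈ S, U j = μ)
    (h : 0 < Module.finrank ℂ ↥(VS (fun j => aff (P j)) U E)) :
    (n : ℤ) * ((μ : ℤ) * μ) < (E : ℤ) * E := by
  classical
  obtain ⟨e, he, he'⟩ := ex_emb S hS
  have c1 := vs_emb (P := P) he he' (v := fun j => if j ∈ S then μ else 0) (μ := μ)
    (fun j hj => by rw [if_pos hj]) (fun j hj => by rw [if_neg hj]) E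
  have c2 : 0 < Module.finrank ℂ ↥(VS (fun j => aff (P (e j))) (fun _ : Fin n => μ) E) := by
    rw [← c1]
    have hf := vs_fin (fun j => aff (P j)) (fun j => if j ∈ S then μ else 0) E
    refine lt_of_lt_of_le h (Submodule.finrank_mono (vs_le fun j => ?_))
    by_cases hj : j ∈ S
    · rw [if_pos hj, hUS j hj]
    · rw [if_neg hj]
      exact Nat.zero_le _
  have c3 := nag hn (gen_emb hP e) c2 hμ
  have c4 : 0 ≤ √(n : ℝ) * μ := by positivity
  have c5 : (√(n : ℝ) * μ) * (√(n : ℝ) * μ) < (E : ℝ) * E := mul_self_lt_mul_self c4 c3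
  have c6 : (√(n : ℝ) * μ) * (√(n : ℝ) * μ) = (n : ℝ) * ((μ : ℝ) * μ) := by
    have := Real.mul_self_sqrt (Nat.cast_nonneg (α := ℝ) n)
    calc (√(n : ℝ) * μ) * (√(n : ℝ) * μ) = (√(n : ℝ) * √(n : ℝ)) * ((μ : ℝ) * μ) := by ring
      _ = (n : ℝ) * ((μ : ℝ) * μ) := by rw [this]
  rw [c6] at c5
  exact_mod_cast c5

/-- The hypothesis on the number `n`: uniform systems of dimension at least two are not special, and
either all uniform systems are not special or `n` is at most `25`. -/
def Good (n : ℕ) : Prop := Two n ∧ (Uns n ∨ n ≤ 25)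

theorem rigid_chi {s n : ℕ} (hn : 10 ≤ n) (hG : Good n) {P : Fin s → Fin 2 → ℂ} (hP : Gen P)
    {S : Finset (Fin s)} (hS : S.card = n) : ∀ (d m : ℕ) (_ : 1 ≤ m) (w : Fin s → ℕ)
    (_ : ∀ j ∈ S, w j = m) (_ : ∀ j, j ∉ S → w j ≤ 2) (_ : Uns n ∨ ∃ j, j ∉ S ∧ 0 < w j)
    (_ : Module.finrank ℂ ↥(VS (fun j => aff (P j)) w d) = 1), chi d w = 1 := by
  classical
  intro d
  induction d using Nat.strong_induction_on with
  | _ d ih =>
  intro m hm w hwS hw2 hc h1
  obtain ⟨f, hf, hf0⟩ := exists_mem
    (show 0 < Module.finrank ℂ ↥(VS (fun j => aff (P j)) w d) by omega)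
  have hle := chi_le_dim P d w
  rw [h1] at hle
  by_cases hsq : Squarefree f
  · have h2 := tlem hP h1 hf hf0 hsq S hw2
    have h3 := uni_zero hG.1 hP hS (v := fun j => if j ∈ S then w j else 0) (μ := m)
      (fun j hj => by rw [if_pos hj, hwS j hj]) (fun j hj => by rw [if_neg hj]) (d := d) (by omega)
      (by
        rcases hc with hc | ⟨j, hj, hj0⟩
        · exact Or.inl hc
        · right
          have h5 : (1 : ℕ) ≤ ∑ j, (if j ∈ S then 0 else (w j + 1).choose 2) := by
            refine le_trans ?_ (Finset.single_le_sum (f := fun j =>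
              (if j ∈ S then 0 else (w j + 1).choose 2)) (fun j _ => Nat.zero_le _)
              (Finset.mem_univ j))
            show 1 ≤ (if j ∈ S then 0 else (w j + 1).choose 2)
            rw [if_neg hj]
            exact Nat.choose_pos (by omega)
          omega)
    have h4 := chi_split S d w
    rw [← h3] at h4
    push_cast at hle
    omega
  exfalso
  obtain ⟨E, U, hE, hEd, h2U, hinv, a1, a2, a3, a4⟩ := exists_sq hP h1 hf hf0 hsq
  obtain ⟨i0, hi0⟩ : S.Nonempty := Finset.card_pos.1 (by omega)
  obtain ⟨μ, hμ⟩ : ∃ μ, μ = U i0 := ⟨_, rfl⟩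
  have hUS : ∀ j ∈ S, U j = μ := fun j hj => by
    rw [hμ]
    exact hinv _ _ (by rw [hwS j hj, hwS i0 hi0])
  have h2μ : 2 * μ ≤ m := by
    rw [hμ, ← hwS i0 hi0]
    exact h2U i0
  have hU1 : ∀ j, j ∉ S → U j ≤ 1 := fun j hj => by
    have := hw2 j hj
    have := h2U j
    omega
  -- the induction hypothesis
  have b0 := ih (d - E) (by omega) (m - μ) (by omega) (fun j => w j - U j)
    (fun j hj => by
      show w j - U j = m - μ
      rw [hUS j hj, hwS j hj])
    (fun j hj => by
      show w j - U j ≤ 2
      have := hw2 j hj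
      omega)
    (by
      rcases hc with hc | ⟨j, hj, hj0⟩
      · exact Or.inl hc
      · right
        refine ⟨j, hj, ?_⟩
        show 0 < w j - U j
        have := h2U j
        omega) a4
  have b1 := chi_le_dim P (d - 2 * E) (fun j => w j - 2 * U j)
  rw [a3] at b1
  obtain ⟨x, hx⟩ : ∃ x, x = d - 2 * E := ⟨_, rfl⟩
  have hx1 : d = x + 2 * E := by omega
  have hx2 : d - E = x + E := by omega
  rw [← hx] at b1 a3
  rw [hx2] at b0
  rw [hx1] at hle
  obtain ⟨v, hv⟩ : ∃ v : Fin s → ℕ, v = fun j => w j - 2 * U j := ⟨_, rfl⟩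
  have hwv : w = fun j => v j + 2 * U j := by
    funext j
    rw [hv]
    have := h2U j
    show w j = w j - 2 * U j + 2 * U j
    omega
  have hwv1 : (fun j => w j - U j) = fun j => v j + U j := by
    funext j
    rw [hv]
    have := h2U j
    show w j - U j = w j - 2 * U j + U j
    omega
  rw [← hv] at b1 a3
  rw [hwv1] at b0
  rw [hwv] at hle
  have c0 := two_chi x v
  have c1 := two_chi (x + E) (fun j => v j + U j)
  have c2 := two_chi (x + 2 * E) (fun j => v j + 2 * U j)
  have e1 : ip (x + 2 * E) (fun j => v j + 2 * U j) (x + 2 * E) (fun j => v j + 2 * U j) +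
      ip x v x v = 2 * ip (x + E) (fun j => v j + U j) (x + E) (fun j => v j + U j) +
        2 * ip E U E U := by
    rw [ip_self, ip_self, ip_self, ip_self]
    have e0 : (∑ j, ((v j + 2 * U j : ℕ) : ℤ) * ((v j + 2 * U j : ℕ) : ℤ)) +
        ∑ j, (v j : ℤ) * v j = 2 * (∑ j, ((v j + U j : ℕ) : ℤ) * ((v j + U j : ℕ) : ℤ)) +
        2 * ∑ j, (U j : ℤ) * U j := by
      rw [Finset.mul_sum, Finset.mul_sum, ← Finset.sum_add_distrib, ← Finset.sum_add_distrib]
      refine Finset.sum_congr rfl fun j _ => ?_
      push_cast
      ring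
    push_cast at e0 ⊢
    linarith
  have e2 : kk (x + 2 * E) (fun j => v j + 2 * U j) + kk x v =
      2 * kk (x + E) (fun j => v j + U j) := by
    rw [kk_def, kk_def, kk_def]
    have e0 : (∑ j, ((v j + 2 * U j : ℕ) : ℤ)) + ∑ j, (v j : ℤ) =
        2 * (∑ j, ((v j + U j : ℕ) : ℤ)) := by
      rw [Finset.mul_sum, ← Finset.sum_add_distrib]
      refine Finset.sum_congr rfl fun j _ => ?_
      push_cast
      ring
    push_cast at e0 ⊢
    linarith
  push_cast at hle b1
  have hneg : ip E U E U ≤ 0 := by linarith
  obtain ⟨t, ht, ht1, ht2⟩ := sum_two hUS hU1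
  rw [hS] at ht1 ht2
  have hE' : (0 : ℤ) < E := by exact_mod_cast hE
  have hn' : (10 : ℤ) ≤ n := by exact_mod_cast hn
  by_cases hU0 : ∃ j, j ∉ S ∧ U j = 1
  · -- the square part passes through the double points
    have d1 := uni_one hG.1 hP hS hUS hU1 (d := E) (by omega) (Or.inr (Or.inr hU0))
    rw [a1] at d1
    have d2 := two_chi E U
    rw [← d1] at d2
    push_cast at d2
    have hself := ip_self E U
    have hkk := kk_def E U
    rw [ht2] at hself
    rw [ht1] at hkk
    rcases Nat.eq_zero_or_pos μ with h0 | h0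
    · -- no multiplicities on `S`
      obtain ⟨j0, hj0S, hj0⟩ := hU0
      have hw0 : w j0 = 2 := by
        have := hw2 j0 hj0S
        have := h2U j0
        omega
      have hUw : ∀ j, U j = 1 ∨ (U j = 0 ∧ w j ≠ 2) := by
        intro j
        by_cases hj : w j = 2
        · left
          rw [← hj0]
          exact hinv _ _ (by rw [hj, hw0])
        · right
          refine ⟨?_, hj⟩
          by_cases hjS : j ∈ S
          · rw [hUS j hjS, h0]
          · have := hw2 j hjS
            have := h2U j
            omega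
      have hvS : ∀ j ∈ S, v j = m := fun j hj => by
        rw [hv]
        show w j - 2 * U j = m
        rw [hUS j hj, hwS j hj, h0]
        omega
      have hv1 : ∀ j, j ∉ S → v j ≤ 1 := fun j hj => by
        rw [hv]
        show w j - 2 * U j ≤ 1
        have := hw2 j hj
        have := hUw j
        omega
      have hvU : ∀ j, (v j : ℤ) * U j = 0 := by
        intro j
        rcases hUw j with h | ⟨h, -⟩
        · have hj2 : v j = 0 := by
            rw [hv]
            show w j - 2 * U j = 0
            by_cases hjS : j ∈ S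
            · have := hUS j hjS
              omega
            · have := hw2 j hjS
              omega
          rw [hj2]
          norm_num
        · rw [h]
          norm_num
      have e3 : ip (x + E) (fun j => v j + U j) (x + E) (fun j => v j + U j) =
          ip x v x v + ip E U E U + 2 * ((x : ℤ) * E) := by
        rw [ip_self, ip_self, ip_self]
        have e0 : (∑ j, ((v j + U j : ℕ) : ℤ) * ((v j + U j : ℕ) : ℤ)) =
            (∑ j, (v j : ℤ) * v j) + ∑ j, (U j : ℤ) * U j := by
          rw [← Finset.sum_add_distrib]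
          refine Finset.sum_congr rfl fun j _ => ?_
          push_cast
          have := hvU j
          linear_combination 2 * this
        rw [e0]
        push_cast
        ring
      have e4 : kk (x + E) (fun j => v j + U j) = kk x v + kk E U := by
        rw [kk_def, kk_def, kk_def]
        have e0 : (∑ j, ((v j + U j : ℕ) : ℤ)) = (∑ j, (v j : ℤ)) + ∑ j, (U j : ℤ) := by
          rw [← Finset.sum_add_distrib]
          refine Finset.sum_congr rfl fun j _ => ?_
          push_cast
          ring
        rw [e0]
        push_cast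
        ring
      have hχ : chi x v = 1 - (x : ℤ) * E := by linarith
      have hxE : 0 ≤ (x : ℤ) * E := by positivity
      by_cases hcv : Uns n ∨ ∃ j, j ∉ S ∧ v j = 1
      · have g1 := uni_one hG.1 hP hS hvS hv1 (d := x) (by omega)
          (by
            rcases hcv with h | h
            · exact Or.inl h
            · exact Or.inr (Or.inr h))
        rw [a3, hχ] at g1
        push_cast at g1
        have d4 : (x : ℤ) * E = 0 := by linarith
        have hx0 : (x : ℤ) = 0 := by
          rcases mul_eq_zero.1 d4 with h | h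
          · exact h
          · omega
        rw [ip_self, kk_def, hx0] at c0
        rw [hx0] at hχ
        rw [hχ] at c0
        have d6 : (0 : ℤ) ≤ ∑ j, (v j : ℤ) * v j :=
          Finset.sum_nonneg fun j _ => by positivity
        have d7 : ((v i0 : ℕ) : ℤ) ≤ ∑ j, (v j : ℤ) :=
          Finset.single_le_sum (f := fun j => (v j : ℤ))
            (fun j _ => Int.natCast_nonneg _) (Finset.mem_univ i0)
        rw [hvS i0 hi0] at d7
        omega
      · push Not at hcv
        obtain ⟨hcv1, hcv2⟩ := hcv
        have hn25 : n ≤ 25 := by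
          rcases hG.2 with h | h
          · exact absurd h hcv1
          · exact h
        have hv0 : ∀ j, j ∉ S → v j = 0 := fun j hj => by
          have := hv1 j hj
          have := hcv2 j hj
          omega
        obtain ⟨t', ht', ht1', ht2'⟩ := sum_two hvS hv1
        have ht0 : t' = 0 := by
          have e0 : (∑ j, (v j : ℤ)) = S.card * m := by
            have e5 : (∑ j, (v j : ℤ)) = ∑ j ∈ S, (v j : ℤ) := by
              symm
              apply Finset.sum_subset (Finset.subset_univ _)
              intro i _ hi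
              rw [hv0 i hi]
              rfl
            rw [e5, Finset.sum_congr rfl (fun j hj => by rw [hvS j hj]), Finset.sum_const,
              nsmul_eq_mul]
          linarith
        rw [ht0, hS] at ht1' ht2'
        rw [ip_self, kk_def, ht1', ht2'] at c0
        have hN := nag_on hn hP hS (show 0 < m by omega) hvS (E := x) (by omega)
        have hm' : (1 : ℤ) ≤ m := by exact_mod_cast hm
        have hx' : (0 : ℤ) ≤ x := Int.natCast_nonneg _
        have hn25' : (n : ℤ) ≤ 25 := by exact_mod_cast hn25
        have g2 : (x : ℤ) ≤ x * E := by nlinarith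
        have g3 : 5 * (x : ℤ) < n * m := by linarith
        have g4 : (5 * (x : ℤ)) * (5 * x) < (n * m) * (n * m) := by nlinarith
        have g5 : ((n : ℤ) * m) * (n * m) ≤ 25 * (n * (m * m)) := by
          have : 0 ≤ (n : ℤ) * (m * m) := by positivity
          nlinarith
        nlinarith
    · -- positive multiplicities on `S`
      have hN := nag_on hn hP hS h0 hUS (E := E) (by omega)
      have hμ' : (0 : ℤ) < μ := by exact_mod_cast h0
      exact num_one (n := n) (E := E) (μ := μ) (t := t) hn' hE' hμ' hN (by linarith) (by linarith)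
  · -- no points outside `S`
    push Not at hU0
    have ht0 : t = 0 := by
      have e0 : (∑ j, (U j : ℤ)) = S.card * μ := by
        have e5 : (∑ j, (U j : ℤ)) = ∑ j ∈ S, (U j : ℤ) := by
          symm
          apply Finset.sum_subset (Finset.subset_univ _)
          intro i _ hi
          have := hU0 i hi
          have := hU1 i hi
          have h7 : U i = 0 := by omega
          rw [h7]
          rfl
        rw [e5, Finset.sum_congr rfl (fun j hj => by rw [hUS j hj]), Finset.sum_const,
          nsmul_eq_mul]
      rw [hS] at e0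
      linarith
    have hself := ip_self E U
    rw [ht2, ht0] at hself
    rcases Nat.eq_zero_or_pos μ with h0 | h0
    · rw [h0] at hself
      have : 0 < (E : ℤ) * E := by positivity
      push_cast at hself
      linarith
    · have hN := nag_on hn hP hS h0 hUS (E := E) (by omega)
      linarith

end Pool.Agent.X157.H
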