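import Pool.Agent.X157.H.Uni
import Pool.Agent.X157.W.FixK
import Pool.Agent.X157.W.Fix2

set_option autoImplicit false

/-!
# The symmetric square part of a rigid system
-/

namespace Pool.Agent.X157.H

open MvPolynomial Pool.Agent.W609 Pool.Agent.W609.CR Pool.Agent.TH167 Pool.Agent.TH167.SH
  Pool.Agent.TH167.TT Pool.Agent.X157.W

/-- A rigid system whose member is not squarefree contains twice a symmetric class. -/
theorem exists_sq {s : ℕ} {P : Fin s → Fin 2 → ℂ} (hP : Gen P) {d : ℕ} {w : Fin s → ℕ}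
    (h1 : Module.finrank ℂ ↥(VS (fun j => aff (P j)) w d) = 1)
    {f : MvPolynomial (Fin 3) ℂ} (hf : f ∈ VS (fun j => aff (P j)) w d) (hf0 : f ≠ 0)
    (hsq : ¬ Squarefree f) :
    ∃ (E : ℕ) (U : Fin s → ℕ), 0 < E ∧ 2 * E ≤ d ∧ (∀ j, 2 * U j ≤ w j) ∧
      (∀ i j, w i = w j → U i = U j) ∧
      Module.finrank ℂ ↥(VS (fun j => aff (P j)) U E) = 1 ∧
      Module.finrank ℂ ↥(VS (fun j => aff (P j)) (fun j => 2 * U j) (2 * E)) = 1 ∧
      Module.finrank ℂ ↥(VS (fun j => aff (P j)) (fun j => w j - 2 * U j) (d - 2 * E)) = 1 ∧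
      Module.finrank ℂ ↥(VS (fun j => aff (P j)) (fun j => w j - U j) (d - E)) = 1 := by
  classical
  obtain ⟨x, hx, hxu⟩ : ∃ x, x * x ∣ f ∧ ¬ IsUnit x := by
    unfold Squarefree at hsq
    push Not at hsq
    exact hsq
  have hx0 : x ≠ 0 := by
    rintro rfl
    rw [mul_zero, zero_dvd_iff] at hx
    exact hf0 hx
  obtain ⟨G, hG, hGx⟩ := WfDvdMonoid.exists_irreducible_factor hxu hx0
  have hGf : G ^ 2 ∣ f := by
    rw [sq]
    exact (mul_dvd_mul hGx hGx).trans hx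
  have hfm := (mem_VS _ _ _ _).1 hf
  have hGh := Pool.Agent.Chud.homog_of_dvd hfm.1 hf0 ((dvd_pow_self G two_ne_zero).trans hGf)
  obtain ⟨e, he⟩ : ∃ e, e = G.totalDegree := ⟨_, rfl⟩
  rw [← he] at hGh
  have hex : ∀ j, ∃ m, Ord (aff (P j)) m G := fun j => exists_ord (p := P j) hG.ne_zero hGh
  choose u hu using hex
  have hall : ∀ F ∈ VS (fun j => aff (P j)) w d, ∃ c : ℂ, F = C c * f := by
    intro F hF
    have h2 := (finrank_eq_one_iff_of_nonzero' (⟨f, hf⟩ : ↥(VS (fun j => aff (P j)) w d))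
      (fun h => hf0 (congrArg Subtype.val h))).1 h1 ⟨F, hF⟩
    obtain ⟨c, hc⟩ := h2
    refine ⟨c, ?_⟩
    have h3 := congrArg Subtype.val hc
    rw [← MvPolynomial.smul_eq_C_mul]
    exact h3.symm
  have hK : FxK P d w 2 e u G := ⟨hG, hGh, hu, fun F hF => by
    obtain ⟨c, rfl⟩ := hall F hF
    exact hGf.mul_left _⟩
  have hepos : 0 < e := deg_pos hG hGh
  obtain ⟨T, hTd⟩ : ∃ T : Finset (ℕ × (Fin s → ℕ)), T = (Finset.univ.filter
    fun σ : Equiv.Perm (Fin s) => ∀ j, w (σ j) = w j).image fun σ => (e, fun j => u (σ j)) :=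
    ⟨_, rfl⟩
  have hTmem : ∀ t, t ∈ T ↔ ∃ σ : Equiv.Perm (Fin s), (∀ j, w (σ j) = w j) ∧
      (e, fun j => u (σ j)) = t := by
    intro t
    rw [hTd, Finset.mem_image]
    constructor
    · rintro ⟨σ, hσ, h⟩
      exact ⟨σ, (Finset.mem_filter.1 hσ).2, h⟩
    · rintro ⟨σ, hσ, h⟩
      exact ⟨σ, Finset.mem_filter.2 ⟨Finset.mem_univ _, hσ⟩, h⟩
  have hT : ∀ t : ℕ × (Fin s → ℕ), ∃ G', t ∈ T → FxK P d w 2 t.1 t.2 G' := by
    intro t
    by_cases ht : t ∈ T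
    · obtain ⟨σ, hσ, rfl⟩ := (hTmem t).1 ht
      obtain ⟨G', hG'⟩ := hK.perm hP σ hσ
      exact ⟨G', fun _ => hG'⟩
    · exact ⟨0, fun h => absurd h ht⟩
  choose G' hG' using hT
  have hne : ∀ t ∈ T, ∀ t' ∈ T, t ≠ t' → ¬ (t.1 = t'.1 ∧ t.2 = t'.2) :=
    fun t _ t' _ htt h => htt (Prod.ext h.1 h.2)
  obtain ⟨E, hE⟩ : ∃ E, E = ∑ t ∈ T, t.1 := ⟨_, rfl⟩
  obtain ⟨U, hU⟩ : ∃ U : Fin s → ℕ, U = fun j => ∑ t ∈ T, t.2 j := ⟨_, rfl⟩
  have hmem1 : (e, u) ∈ T := (hTmem _).2 ⟨1, fun _ => rfl, rfl⟩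
  have hEpos : 0 < E := by
    rw [hE]
    exact lt_of_lt_of_le hepos (Finset.single_le_sum (f := fun t : ℕ × (Fin s → ℕ) => t.1)
      (fun t _ => Nat.zero_le _) hmem1)
  -- the product
  obtain ⟨A, hA⟩ : ∃ A, A = ∏ t ∈ T, G' t := ⟨_, rfl⟩
  have hA0 : A ≠ 0 := by
    rw [hA]
    exact Finset.prod_ne_zero_iff.2 fun t ht => (hG' t ht).1.ne_zero
  have hAh : A.IsHomogeneous E := by
    rw [hA, hE]
    exact MvPolynomial.IsHomogeneous.prod T G' (fun t => t.1) fun t ht => (hG' t ht).2.1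
  have hAo : ∀ j, Ord (aff (P j)) (U j) A := by
    intro j
    rw [hA, hU]
    exact ord_prod T G' (fun t => t.2 j) fun t ht => (hG' t ht).2.2.1 j
  have hA2h : (A ^ 2).IsHomogeneous (2 * E) := by
    rw [mul_comm]
    exact hAh.pow 2
  have hA2o : ∀ j, Ord (aff (P j)) (2 * U j) (A ^ 2) := fun j => ord_pow (hAo j) 2
  have hA2 : A ^ 2 ∣ f := by
    rw [hA, ← Finset.prod_pow]
    refine Finset.prod_dvd_of_isRelPrime ?_ fun t ht => (hG' t ht).2.2.2 f hf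
    intro t ht t' ht' htt
    show IsRelPrime (G' t ^ 2) (G' t' ^ 2)
    refine IsRelPrime.pow ?_
    rw [(hG' t ht).1.isRelPrime_iff_not_dvd]
    intro hd
    obtain ⟨a1, a2, a3, -⟩ := hG' t ht
    obtain ⟨b1, b2, b3, -⟩ := hG' t' ht'
    exact hne t ht t' ht' htt (assoc_class a1 b1 a2 b2 a3 b3 hd)
  obtain ⟨h', hh'⟩ := hA2
  have hh0 : h' ≠ 0 := fun h => hf0 (by rw [hh', h, mul_zero])
  obtain ⟨q1, q2⟩ := mem_of_factor hf hf0 hA2h hA2o hh'
  obtain ⟨q3, q4⟩ := mem_of_factor hf hf0 hAh hAo (h := A * h') (by rw [hh']; ring)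
  have hAm : A ∈ VS (fun j => aff (P j)) U E := (mem_VS _ _ _ _).2 ⟨hAh, fun j => (hAo j).1⟩
  have hA2m : A ^ 2 ∈ VS (fun j => aff (P j)) (fun j => 2 * U j) (2 * E) :=
    (mem_VS _ _ _ _).2 ⟨hA2h, fun j => (hA2o j).1⟩
  have h2U : ∀ j, 2 * U j ≤ w j := by
    intro j
    have h3 := exact_ord hP h1 hf hf0 j
    obtain ⟨β, hβ⟩ := exists_ord (p := P j) hh0 ((mem_VS _ _ _ _).1 q2).1
    have h4 := ord_mul (hA2o j) hβ
    rw [← hh'] at h4
    have h5 := ord_unique h3 h4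
    omega
  refine ⟨E, U, hEpos, q1, h2U, ?_, ?_, ?_, ?_, ?_⟩
  · intro i j hij
    rw [hU]
    show ∑ t ∈ T, t.2 i = ∑ t ∈ T, t.2 j
    have hmaps : ∀ t ∈ T, ((t.1, fun l => t.2 (Equiv.swap i j l)) : ℕ × (Fin s → ℕ)) ∈ T := by
      intro t ht
      obtain ⟨σ, hσ, rfl⟩ := (hTmem t).1 ht
      refine (hTmem _).2 ⟨(Equiv.swap i j).trans σ, fun l => ?_, rfl⟩
      show w (σ (Equiv.swap i j l)) = w l
      rw [hσ, sw_w hij]
    have hinv : ∀ t ∈ T, ((((t.1, fun l => t.2 (Equiv.swap i j l)) : ℕ × (Fin s → ℕ)).1,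
        fun l => ((t.1, fun l => t.2 (Equiv.swap i j l)) : ℕ × (Fin s → ℕ)).2
          (Equiv.swap i j l)) : ℕ × (Fin s → ℕ)) = t := by
      intro t _
      refine Prod.ext rfl ?_
      funext l
      show t.2 (Equiv.swap i j (Equiv.swap i j l)) = t.2 l
      rw [Equiv.swap_apply_self]
    refine Finset.sum_nbij' (fun t => (t.1, fun l => t.2 (Equiv.swap i j l)))
      (fun t => (t.1, fun l => t.2 (Equiv.swap i j l))) hmaps hmaps hinv hinv ?_
    intro t _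
    show t.2 i = t.2 (Equiv.swap i j j)
    rw [Equiv.swap_apply_right]
  · have h3 := rigid_dim hf0 hf T G' (fun _ => 1) (fun t => t.1) (fun t => t.2)
      (fun t ht => ⟨(hG' t ht).1, (hG' t ht).2.1, (hG' t ht).2.2.1, fun F hF =>
        (pow_dvd_pow _ (by norm_num)).trans ((hG' t ht).2.2.2 F hF)⟩) hne
    have e1 : (fun j => ∑ t ∈ T, 1 * t.2 j) = U := by
      rw [hU]
      funext j
      exact Finset.sum_congr rfl fun t _ => one_mul _
    have e2 : (∑ t ∈ T, 1 * t.1) = E := by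
      rw [hE]
      exact Finset.sum_congr rfl fun t _ => one_mul _
    rw [e1, e2] at h3
    exact h3
  · have h3 := rigid_dim hf0 hf T G' (fun _ => 2) (fun t => t.1) (fun t => t.2) hG' hne
    have e1 : (fun j => ∑ t ∈ T, 2 * t.2 j) = fun j => 2 * U j := by
      rw [hU]
      funext j
      exact (Finset.mul_sum _ _ _).symm
    have e2 : (∑ t ∈ T, 2 * t.1) = 2 * E := by
      rw [hE]
      exact (Finset.mul_sum _ _ _).symm
    rw [e1, e2] at h3
    exact h3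
  · refine le_antisymm ?_ (pos_of_mem q2 hh0)
    have h3 := mult_le (w := fun j => w j - 2 * U j) (d := d - 2 * E) hA2m (pow_ne_zero 2 hA0)
    have e1 : (fun j => w j - 2 * U j + 2 * U j) = w := by
      funext j
      have := h2U j
      omega
    rw [e1, Nat.sub_add_cancel q1, h1] at h3
    exact h3
  · refine le_antisymm ?_ (pos_of_mem q4 (mul_ne_zero hA0 hh0))
    have h3 := mult_le (w := fun j => w j - U j) (d := d - E) hAm hA0
    have e1 : (fun j => w j - U j + U j) = w := by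
      funext j
      have := h2U j
      omega
    rw [e1, Nat.sub_add_cancel q3, h1] at h3
    exact h3

end Pool.Agent.X157.H
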