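import Pool.Agent.X157.W.Mov
import Pool.Agent.TH167.TT.Tlem

set_option autoImplicit false

/-!
# Uniform multiplicities on a set of points, simple points elsewhere
-/

namespace Pool.Agent.X157.H

open MvPolynomial Pool.Agent.W609 Pool.Agent.W609.CR Pool.Agent.TH167 Pool.Agent.TH167.SH
  Pool.Agent.TH167.TT Pool.Agent.X157.W

/-- Uniform systems with `n` points are not special. -/
def Uns (n : ℕ) : Prop := ∀ Q : Fin n → Fin 2 → ℂ, Gen Q → ∀ m d : ℕ, ¬ Sp Q d m

theorem sum_emb {n k : ℕ} (f : Fin n → ℤ) {S : Finset (Fin n)} (hS : S.card = k)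
    {e : Fin k ↪ Fin n} (he : ∀ j, e j ∈ S) : ∑ j, f (e j) = ∑ i ∈ S, f i := by
  classical
  have e1 : S = Finset.univ.map e := by
    symm
    apply Finset.eq_of_subset_of_card_le
    · intro i hi
      obtain ⟨j, -, rfl⟩ := Finset.mem_map.1 hi
      exact he j
    · rw [Finset.card_map, Finset.card_univ, Fintype.card_fin, hS]
  rw [e1, Finset.sum_map]

/-- an enumeration of `S` -/
theorem ex_emb {n k : ℕ} (S : Finset (Fin n)) (hS : S.card = k) :
    ∃ e : Fin k ↪ Fin n, (∀ j, e j ∈ S) ∧ ∀ i ∈ S, ∃ j, e j = i := by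
  refine ⟨(S.orderEmbOfFin hS).toEmbedding, fun j => S.orderEmbOfFin_mem hS j, ?_⟩
  intro i hi
  have h2 : i ∈ Set.range (S.orderEmbOfFin hS) := by
    rw [Finset.range_orderEmbOfFin]
    exact hi
  exact h2

theorem gen_emb {s k : ℕ} {P : Fin s → Fin 2 → ℂ} (hP : Gen P) (e : Fin k ↪ Fin s) :
    Gen fun j => P (e j) := by
  unfold Gen at hP ⊢
  exact hP.comp (fun ij : Fin k × Fin 2 => (e ij.1, ij.2)) (by
    rintro ⟨a, b⟩ ⟨a', b'⟩ h
    have e1 := e.injective (congrArg Prod.fst h)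
    have e2 := congrArg Prod.snd h
    exact Prod.ext e1 e2)

/-- the restriction to the points of `S` -/
theorem vs_emb {s k : ℕ} {P : Fin s → Fin 2 → ℂ} {S : Finset (Fin s)} {e : Fin k ↪ Fin s}
    (he : ∀ j, e j ∈ S) (he' : ∀ i ∈ S, ∃ j, e j = i) {v : Fin s → ℕ} {μ : ℕ}
    (hv : ∀ j ∈ S, v j = μ) (hv0 : ∀ j, j ∉ S → v j = 0) (d : ℕ) :
    VS (fun j => aff (P j)) v d = VS (fun j => aff (P (e j))) (fun _ : Fin k => μ) d := by
  ext f
  rw [mem_VS, mem_VS]
  constructor
  · rintro ⟨h1, h2⟩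
    refine ⟨h1, fun j => ?_⟩
    have h3 := h2 (e j)
    rw [hv _ (he j)] at h3
    exact h3
  · rintro ⟨h1, h2⟩
    refine ⟨h1, fun i => ?_⟩
    by_cases hi : i ∈ S
    · obtain ⟨j, rfl⟩ := he' i hi
      rw [hv _ hi]
      exact h2 j
    · rw [hv0 i hi]
      exact van_zero _ _

theorem chi_emb {s k : ℕ} {S : Finset (Fin s)} (hS : S.card = k) {v : Fin s → ℕ} {μ : ℕ}
    (hv : ∀ j ∈ S, v j = μ) (hv0 : ∀ j, j ∉ S → v j = 0) (d : ℕ) :
    chi d v = chi d (fun _ : Fin k => μ) := by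
  classical
  obtain ⟨e, he, -⟩ := ex_emb S hS
  unfold chi
  congr 1
  have h1 : ∑ j, (((v j + 1).choose 2 : ℕ) : ℤ) = ∑ i ∈ S, (((v i + 1).choose 2 : ℕ) : ℤ) := by
    symm
    apply Finset.sum_subset (Finset.subset_univ _)
    intro i _ hi
    rw [hv0 i hi]
    rfl
  rw [h1, ← sum_emb (fun i => (((v i + 1).choose 2 : ℕ) : ℤ)) hS he]
  exact Finset.sum_congr rfl fun j _ => by rw [hv _ (he j)]

/-- Uniform systems with `n` points which contain a pencil are not special. -/
def Two (n : ℕ) : Prop := ∀ Q : Fin n → Fin 2 → ℂ, Gen Q → ∀ m d : ℕ,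
  2 ≤ Module.finrank ℂ ↥(VS (fun j => aff (Q j)) (fun _ => m) d) → ¬ Sp Q d m

/-- uniform on `S`, zero elsewhere -/
theorem uni_zero {s n : ℕ} (hT : Two n) {P : Fin s → Fin 2 → ℂ} (hP : Gen P)
    {S : Finset (Fin s)} (hS : S.card = n) {v : Fin s → ℕ} {μ : ℕ}
    (hv : ∀ j ∈ S, v j = μ) (hv0 : ∀ j, j ∉ S → v j = 0) {d : ℕ}
    (hpos : 0 < Module.finrank ℂ ↥(VS (fun j => aff (P j)) v d))
    (hc : Uns n ∨ 2 ≤ Module.finrank ℂ ↥(VS (fun j => aff (P j)) v d)) :
    (Module.finrank ℂ ↥(VS (fun j => aff (P j)) v d) : ℤ) = chi d v := by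
  obtain ⟨e, he, he'⟩ := ex_emb S hS
  have h1 := vs_emb (P := P) he he' hv hv0 d
  have h2 := chi_emb hS hv hv0 d
  rw [h1] at hpos hc ⊢
  rw [h2]
  have h3 : ¬ Sp (fun j => P (e j)) d μ := by
    rcases hc with hc | hc
    · exact hc _ (gen_emb hP e) μ d
    · exact hT _ (gen_emb hP e) μ d hc
  have h4 := chi_le_dim (fun j => P (e j)) d (fun _ : Fin n => μ)
  unfold Sp at h3
  by_contra hne
  exact h3 ⟨hpos, lt_of_le_of_ne h4 fun h => hne h.symm⟩

theorem chi_update {s : ℕ} {v : Fin s → ℕ} {j : Fin s} (hj : v j = 0) (d : ℕ) :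
    chi d (Function.update v j 1) = chi d v - 1 := by
  classical
  unfold chi
  have h1 : ∑ i, (((Function.update v j 1 i + 1).choose 2 : ℕ) : ℤ) =
      ∑ i, ((((v i + 1).choose 2 : ℕ) : ℤ) + if i = j then 1 else 0) := by
    refine Finset.sum_congr rfl fun i _ => ?_
    by_cases hi : i = j
    · subst hi
      rw [Function.update_self, hj, if_pos rfl]
      rfl
    · rw [Function.update_of_ne hi, if_neg hi, add_zero]
  rw [h1, Finset.sum_add_distrib, Finset.sum_ite_eq' Finset.univ j, if_pos (Finset.mem_univ j)]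
  ring

/-- uniform on `S`, at most one elsewhere -/
theorem uni_one {s n : ℕ} (hT : Two n) {P : Fin s → Fin 2 → ℂ} (hP : Gen P)
    {S : Finset (Fin s)} (hS : S.card = n) {v : Fin s → ℕ} {μ : ℕ}
    (hv : ∀ j ∈ S, v j = μ) (hv1 : ∀ j, j ∉ S → v j ≤ 1) {d : ℕ}
    (hpos : 0 < Module.finrank ℂ ↥(VS (fun j => aff (P j)) v d))
    (hc : Uns n ∨ 2 ≤ Module.finrank ℂ ↥(VS (fun j => aff (P j)) v d) ∨ ∃ j, j ∉ S ∧ v j = 1) :
    (Module.finrank ℂ ↥(VS (fun j => aff (P j)) v d) : ℤ) = chi d v := by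
  classical
  have key : ∀ A : Finset (Fin s), (∀ j ∈ A, j ∉ S) →
      0 < Module.finrank ℂ ↥(VS (fun j => aff (P j))
        (fun j => if j ∈ S then μ else if j ∈ A then 1 else 0) d) →
      (Uns n ∨ 2 ≤ Module.finrank ℂ ↥(VS (fun j => aff (P j))
        (fun j => if j ∈ S then μ else if j ∈ A then 1 else 0) d) ∨ A.Nonempty) →
      (Module.finrank ℂ ↥(VS (fun j => aff (P j))
        (fun j => if j ∈ S then μ else if j ∈ A then 1 else 0) d) : ℤ) =
        chi d (fun j => if j ∈ S then μ else if j ∈ A then 1 else 0) := by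
    intro A
    induction A using Finset.induction_on with
    | empty =>
      intro _ h h'
      refine uni_zero hT hP hS (μ := μ) (fun j hj => by rw [if_pos hj])
        (fun j hj => by rw [if_neg hj, if_neg (Finset.notMem_empty j)]) h ?_
      rcases h' with h' | h' | h'
      · exact Or.inl h'
      · exact Or.inr h'
      · exact absurd h' Finset.not_nonempty_empty
    | insert a A ha ih =>
      intro hA h _
      obtain ⟨v0, hv0⟩ : ∃ v0 : Fin s → ℕ,
        v0 = fun j => if j ∈ S then μ else if j ∈ A then 1 else 0 := ⟨_, rfl⟩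
      have haS := hA a (Finset.mem_insert_self _ _)
      have e1 : (fun j => if j ∈ S then μ else if j ∈ insert a A then 1 else 0) =
          Function.update v0 a 1 := by
        funext j
        by_cases hj : j = a
        · subst hj
          rw [Function.update_self, if_neg haS, if_pos (Finset.mem_insert_self _ _)]
        · rw [Function.update_of_ne hj, hv0]
          simp only [Finset.mem_insert, hj, false_or]
      have hv0a : v0 a = 0 := by
        rw [hv0]
        simp only [if_neg haS, if_neg ha]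
      rw [e1] at h ⊢
      rw [← hv0] at ih
      have h1 : 0 < Module.finrank ℂ ↥(VS (fun j => aff (P j)) v0 d) := by
        have hf := vs_fin (fun j => aff (P j)) v0 d
        refine lt_of_lt_of_le h (Submodule.finrank_mono (vs_le fun j => ?_))
        by_cases hj : j = a
        · subst hj
          rw [hv0a]
          exact Nat.zero_le _
        · rw [Function.update_of_ne hj]
      have h3 := simple_drop hP hv0a h1
      have h2 := ih (fun j hj => hA j (Finset.mem_insert_of_mem hj)) h1 (Or.inr (Or.inl (by omega)))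
      have h4 := simple_le P hv0a d
      rw [chi_update hv0a, ← h2]
      omega
  have e1 : v = fun j => if j ∈ S then μ else
      if j ∈ Finset.univ.filter (fun j => j ∉ S ∧ v j = 1) then 1 else 0 := by
    funext j
    by_cases hj : j ∈ S
    · rw [if_pos hj, hv j hj]
    · rw [if_neg hj]
      by_cases hj1 : v j = 1
      · rw [if_pos (Finset.mem_filter.2 ⟨Finset.mem_univ _, hj, hj1⟩), hj1]
      · rw [if_neg (fun h => hj1 (Finset.mem_filter.1 h).2.2)]
        have := hv1 j hj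
        omega
  have h1 := key (Finset.univ.filter (fun j => j ∉ S ∧ v j = 1))
    (fun j hj => (Finset.mem_filter.1 hj).2.1)
  rw [← e1] at h1
  refine h1 hpos ?_
  rcases hc with hc | hc | ⟨j, hj, hj1⟩
  · exact Or.inl hc
  · exact Or.inr (Or.inl hc)
  · exact Or.inr (Or.inr ⟨j, Finset.mem_filter.2 ⟨Finset.mem_univ _, hj, hj1⟩⟩)

theorem sum_two {s : ℕ} {S : Finset (Fin s)} {U : Fin s → ℕ} {μ : ℕ} (hS : ∀ j ∈ S, U j = μ)
    (hO : ∀ j, j ∉ S → U j ≤ 1) : ∃ t : ℤ, 0 ≤ t ∧ (∑ j, (U j : ℤ)) = S.card * μ + t ∧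
      (∑ j, (U j : ℤ) * U j) = S.card * (μ * μ) + t := by
  classical
  refine ⟨∑ j, (if j ∈ S then (0:ℤ) else U j), Finset.sum_nonneg fun j _ => ?_, ?_, ?_⟩
  · split_ifs <;> positivity
  · have h1 : (∑ j, (U j : ℤ)) = ∑ j, ((if j ∈ S then (μ : ℤ) else 0) +
        (if j ∈ S then (0:ℤ) else U j)) := Finset.sum_congr rfl fun j _ => by
      by_cases hj : j ∈ S
      · rw [if_pos hj, if_pos hj, hS j hj, add_zero]
      · rw [if_neg hj, if_neg hj, zero_add]
    rw [h1, Finset.sum_add_distrib, Finset.sum_ite_mem, Finset.univ_inter, Finset.sum_const,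
      nsmul_eq_mul]
  · have h1 : (∑ j, (U j : ℤ) * U j) = ∑ j, ((if j ∈ S then (μ * μ : ℤ) else 0) +
        (if j ∈ S then (0:ℤ) else U j)) := Finset.sum_congr rfl fun j _ => by
      by_cases hj : j ∈ S
      · rw [if_pos hj, if_pos hj, hS j hj, add_zero]
      · rw [if_neg hj, if_neg hj, zero_add]
        have := hO j hj
        interval_cases h : U j <;> norm_num
    rw [h1, Finset.sum_add_distrib, Finset.sum_ite_mem, Finset.univ_inter, Finset.sum_const,
      nsmul_eq_mul]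

theorem num_one {n E μ t : ℤ} (hn : 10 ≤ n) (hE : 0 < E) (hμ : 0 < μ)
    (hN : n * (μ * μ) < E * E)
    (h1 : E * E - (n * (μ * μ) + t) + (3 * E - (n * μ + t)) = 0)
    (h2 : E * E - (n * (μ * μ) + t) ≤ 0) : False := by
  have h3 : E * E - n * (μ * μ) ≤ 3 * E - n * μ := by linarith
  have h4 : μ * (E * E - n * (μ * μ)) ≤ μ * (3 * E - n * μ) :=
    mul_le_mul_of_nonneg_left h3 hμ.le
  have h5 : 0 ≤ (μ - 1) * (E * E - n * (μ * μ)) := mul_nonneg (by linarith) (by linarith)
  have h6 : E * E ≤ E * (3 * μ) := by nlinarith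
  have h7 : E ≤ 3 * μ := le_of_mul_le_mul_left h6 hE
  have h8 : E * E ≤ 3 * μ * (3 * μ) := mul_le_mul h7 h7 hE.le (by linarith)
  have h9 : 10 * (μ * μ) ≤ n * (μ * μ) := mul_le_mul_of_nonneg_right hn (by positivity)
  have h10 : 0 < μ * μ := by positivity
  linarith

end Pool.Agent.X157.H
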